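import Pool.Agent.Q2.BP.Check

/-!
# The checker for `x^d - x^(d-1) - 1`
-/

namespace Q2.BP2

open Polynomial Q2.BP

/-- check of the enclosures of the roots -/
def datOk (Y : Dat) (d : ℕ) (K : ℕ) : Bool :=
  decide (1 < Y.bl) && decide (Y.bl ^ (d - 1) * (Y.bl - 1) < 1) &&
  decide (1 < Y.bu ^ (d - 1) * (Y.bu - 1)) &&
  decide (1 < Y.bu) && decide (0 ≤ Y.X.e) && decide (1 < Y.rl) &&
  decide ((Y.rl + Y.X.e) * (Y.rl + Y.X.e) ≤ Y.X.nsq) &&
  decide (0 ≤ Y.bl - Y.X.e) &&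
  decide (Y.X.nsq < (Y.bl - Y.X.e) * (Y.bl - Y.X.e)) &&
  decide (Y.rl ^ K + 1 < (Y.rl ^ K) ^ 2) &&
  (let u := Y.X.pow (d - 2)
   let v := u.mul Y.X
   let w := v.mul Y.X
   let fr := w.re - v.re - 1
   let fi := w.im - v.im
   let gr := d * v.re - (d - 1) * u.re
   let gi := d * v.im - (d - 1) * u.im
   decide ((d : ℚ) * d * (fr * fr + fi * fi) ≤ Y.X.e * Y.X.e * (gr * gr + gi * gi)) &&
   decide (0 < gr * gr + gi * gi))

/-- check of a table for the degrees `d, d + 1, …` -/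
def tblOk : ℕ → List (Dat × List Row) → Bool
  | _, [] => true
  | d, (Y, L) :: t => datOk Y d (L.length + 2) && rowsOk Y 2 L && tblOk (d + 1) t

lemma mono_aux2 {e : ℕ} {u v : ℝ} (hu : 1 < u) (huv : u ≤ v) :
    u ^ e * (u - 1) ≤ v ^ e * (v - 1) := by
  have h2 : u ^ e ≤ v ^ e := by gcongr
  have h3 : 0 < v := by linarith
  apply mul_le_mul h2 (by linarith) (by linarith) (by positivity)

/-- Soundness of the checker. -/
theorem dat_sound {Y : Dat} {d : ℕ} (hd : 2 ≤ d) {L : List Row}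
    (hD : datOk Y d (L.length + 2) = true) (hL : rowsOk Y 2 L = true)
    {b : ℝ} (hb : 1 < b) (hbd : b ^ (d - 1) * (b - 1) = 1) {k : ℕ} (hk : 2 ≤ k) :
    ∃ x : ℂ, 1 < ‖x‖ ∧ x ^ d - x ^ (d - 1) - 1 = 0 ∧
      ∀ M : ℝ, ∃ n, M < ‖ww (b ^ k) (x ^ k) n‖ := by
  unfold datOk at hD
  simp only [Bool.and_eq_true, decide_eq_true_eq] at hD
  obtain ⟨⟨⟨⟨⟨⟨⟨⟨⟨⟨h1, h2⟩, h3⟩, h4⟩, h5⟩, h6⟩, h7⟩, h8⟩, h9⟩, h10⟩, h11, h12⟩ := hD
  have h1' : (1:ℝ) < Y.bl := by exact_mod_cast h1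
  have h2' : (Y.bl:ℝ) ^ (d - 1) * (Y.bl - 1) < 1 := by exact_mod_cast h2
  have h3' : 1 < (Y.bu:ℝ) ^ (d - 1) * (Y.bu - 1) := by exact_mod_cast h3
  have h4' : (1:ℝ) < Y.bu := by exact_mod_cast h4
  have h5' : (0:ℝ) ≤ Y.X.e := by exact_mod_cast h5
  have h6' : (1:ℝ) < Y.rl := by exact_mod_cast h6
  have h7' : ((Y.rl:ℝ) + Y.X.e) * (Y.rl + Y.X.e) ≤ Y.X.nsq := by exact_mod_cast h7
  have h8' : (0:ℝ) ≤ Y.bl - Y.X.e := by exact_mod_cast h8
  have h9' : (Y.X.nsq:ℝ) < (Y.bl - Y.X.e) * (Y.bl - Y.X.e) := by exact_mod_cast h9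
  have h10' : (Y.rl:ℝ) ^ (L.length + 2) + 1 < ((Y.rl:ℝ) ^ (L.length + 2)) ^ 2 := by
    exact_mod_cast h10
  have hbl : (Y.bl:ℝ) ≤ b := by
    by_contra h
    push Not at h
    have := mono_aux2 (e := d - 1) hb h.le
    linarith
  have hbu : b ≤ Y.bu := by
    by_contra h
    push Not at h
    have := mono_aux2 (e := d - 1) h4' h.le
    linarith
  -- the complex root
  set P : ℂ[X] := X ^ d - X ^ (d - 1) - 1 with hP
  have hPe : ∀ z : ℂ, P.eval z = z ^ d - z ^ (d - 1) - 1 := by intro z; simp [hP]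
  have hPd : ∀ z : ℂ, P.derivative.eval z = d * z ^ (d - 1) - (d - 1) * z ^ (d - 2) := by
    intro z
    simp only [hP, derivative_sub, derivative_X_pow, derivative_one, sub_zero, eval_sub,
      eval_mul, eval_pow, eval_X, eval_C]
    have : (((d - 1 : ℕ) : ℂ)) = (d : ℂ) - 1 := by
      rw [Nat.cast_sub (by omega)]; simp
    rw [this]
    congr 2
  have hdeg : P.natDegree ≤ d := by
    rw [hP]
    refine (natDegree_sub_le _ _).trans ?_
    refine max_le ((natDegree_sub_le _ _).trans ?_) (by simp)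
    refine max_le (by simp) (by simp)
  set z0 := Y.X.cen with hz0
  set u := Y.X.pow (d - 2) with hu
  set v := u.mul Y.X with hv
  set w := v.mul Y.X with hw
  have hucen : u.cen = z0 ^ (d - 2) := Ball.cen_pow _ _
  have hvcen : v.cen = z0 ^ (d - 1) := by
    rw [hv, Ball.cen_mul, hucen, ← pow_succ]; congr 1; omega
  have hwcen : w.cen = z0 ^ d := by
    rw [hw, Ball.cen_mul, hvcen, ← pow_succ]; congr 1; omega
  have hPz : P.eval z0 = ⟨((w.re - v.re - 1 : ℚ) : ℝ), ((w.im - v.im : ℚ) : ℝ)⟩ := by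
    rw [hPe, ← hwcen, ← hvcen]
    apply Complex.ext <;> simp [Ball.cen]
  have hPdz : P.derivative.eval z0 =
      ⟨((d * v.re - (d - 1) * u.re : ℚ) : ℝ), ((d * v.im - (d - 1) * u.im : ℚ) : ℝ)⟩ := by
    rw [hPd, ← hvcen, ← hucen]
    apply Complex.ext <;> simp [Ball.cen]
  have hnP : ‖P.eval z0‖ ^ 2 = (((w.re - v.re - 1) * (w.re - v.re - 1)
      + (w.im - v.im) * (w.im - v.im) : ℚ) : ℝ) := by
    rw [hPz, ← Complex.normSq_eq_norm_sq, Complex.normSq_apply]; push_cast; ring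
  have hnD : ‖P.derivative.eval z0‖ ^ 2 =
      (((d * v.re - (d - 1) * u.re) * (d * v.re - (d - 1) * u.re)
      + (d * v.im - (d - 1) * u.im) * (d * v.im - (d - 1) * u.im) : ℚ) : ℝ) := by
    rw [hPdz, ← Complex.normSq_eq_norm_sq, Complex.normSq_apply]; push_cast; ring
  have hD0 : 0 < ‖P.derivative.eval z0‖ := by
    have : 0 < ‖P.derivative.eval z0‖ ^ 2 := by rw [hnD]; exact_mod_cast h12
    rcases (norm_nonneg (P.derivative.eval z0)).lt_or_eq with h | h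
    · exact h
    · rw [← h] at this; norm_num at this
  obtain ⟨x, hx0, hx1⟩ := exists_root_near (P := P) (z := z0) (norm_pos_iff.mp hD0)
  have hmem : ‖x - z0‖ ≤ Y.X.e := by
    have h13 : ((d:ℝ) * ‖P.eval z0‖) ^ 2 ≤ (Y.X.e * ‖P.derivative.eval z0‖) ^ 2 := by
      rw [mul_pow, mul_pow, hnP, hnD]
      have : ((d : ℝ) * d * (((w.re - v.re - 1) * (w.re - v.re - 1)
          + (w.im - v.im) * (w.im - v.im) : ℚ) : ℝ)) ≤ (Y.X.e * Y.X.e : ℝ) *
          (((d * v.re - (d - 1) * u.re) * (d * v.re - (d - 1) * u.re)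
          + (d * v.im - (d - 1) * u.im) * (d * v.im - (d - 1) * u.im) : ℚ) : ℝ) := by
        exact_mod_cast h11
      rw [sq, sq]; exact this
    have h14 : (d:ℝ) * ‖P.eval z0‖ ≤ Y.X.e * ‖P.derivative.eval z0‖ :=
      le_of_sq_le_sq h13 (by positivity)
    have h15 : ‖z0 - x‖ * ‖P.derivative.eval z0‖ ≤ Y.X.e * ‖P.derivative.eval z0‖ := by
      refine hx1.trans (le_trans ?_ h14)
      have : (P.natDegree : ℝ) ≤ d := by exact_mod_cast hdeg
      gcongr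
    rw [norm_sub_rev]
    exact le_of_mul_le_mul_right h15 hD0
  have hxd : x ^ d - x ^ (d - 1) - 1 = 0 := by rw [hPe] at hx0; exact hx0
  have hz0sq : ‖z0‖ ^ 2 = (Y.X.nsq : ℝ) := Y.X.norm_cen_sq
  have hrl : (Y.rl:ℝ) ≤ ‖x‖ := by
    have h16 : (Y.rl:ℝ) + Y.X.e ≤ ‖z0‖ := by
      apply le_of_sq_le_sq _ (norm_nonneg _)
      rw [hz0sq, sq]; exact h7'
    have := norm_sub_norm_le z0 x
    rw [norm_sub_rev] at this
    linarith
  have hxb : ‖x‖ < b := by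
    have h16 : ‖z0‖ < (Y.bl:ℝ) - Y.X.e := by
      apply lt_of_pow_lt_pow_left₀ 2 h8'
      rw [hz0sq, sq]; exact h9'
    have := norm_sub_norm_le x z0
    linarith
  refine ⟨x, by linarith, hxd, ?_⟩
  by_cases hkL : k < 2 + L.length
  · obtain ⟨r, hr⟩ := rowsOk_sound L hL hk hkL
    intro M
    exact rowOk_sound hr (by linarith) hbl hbu hmem (by linarith) hrl hxb.le hb (by omega) M
  · push Not at hkL
    have hkne : k ≠ 0 := by omega
    have hR : (Y.rl:ℝ) ^ (L.length + 2) ≤ ‖x ^ k‖ := by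
      rw [norm_pow]
      calc (Y.rl:ℝ) ^ (L.length + 2) ≤ (Y.rl:ℝ) ^ k := by
            apply pow_le_pow_right₀ h6'.le; omega
        _ ≤ ‖x‖ ^ k := by gcongr
    have hR1 : 1 < (Y.rl:ℝ) ^ (L.length + 2) := one_lt_pow₀ h6' (by omega)
    apply escape_large
    · linarith
    · have h17 : ((Y.rl:ℝ) ^ (L.length + 2)) ^ 2 - (Y.rl:ℝ) ^ (L.length + 2)
          ≤ ‖x ^ k‖ ^ 2 - ‖x ^ k‖ := mono_aux' (le_refl 2) hR1 hR
      linarith
    · intro h
      have : ‖x ^ k‖ = b ^ k := by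
        rw [h, Complex.norm_real, Real.norm_eq_abs, abs_of_pos (by positivity)]
      rw [norm_pow] at this
      have h18 : ‖x‖ ^ k < b ^ k := pow_lt_pow_left₀ hxb (norm_nonneg _) hkne
      linarith

theorem tbl_sound (t : List (Dat × List Row)) {d0 : ℕ} (hd0 : 2 ≤ d0) (h : tblOk d0 t = true)
    {d : ℕ} (hd1 : d0 ≤ d) (hd2 : d < d0 + t.length)
    {b : ℝ} (hb : 1 < b) (hbd : b ^ (d - 1) * (b - 1) = 1) {k : ℕ} (hk : 2 ≤ k) :
    ∃ x : ℂ, 1 < ‖x‖ ∧ x ^ d - x ^ (d - 1) - 1 = 0 ∧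
      ∀ M : ℝ, ∃ n, M < ‖ww (b ^ k) (x ^ k) n‖ := by
  induction t generalizing d0 with
  | nil => simp at hd2; omega
  | cons r t ih =>
    obtain ⟨Y, L⟩ := r
    simp only [tblOk, Bool.and_eq_true] at h
    rcases Nat.eq_or_lt_of_le hd1 with rfl | hlt
    · exact dat_sound hd0 h.1.1 h.1.2 hb hbd hk
    · exact ih (by omega) h.2 hlt (by simp at hd2; omega)

end Q2.BP2
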