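import Pool.Agent.Q2.BP.Core

/-!
# Roots of `x^d - x^(d-1) - 1` off the unit circle are conjugate
-/

namespace Q2.BP2

open Polynomial

/-- the four solutions of `q * q.mirror = p * p.mirror` -/
lemma four {p q : ℤ[X]} (hp : p.IsUnitTrinomial) (hpq : p * p.mirror = q * q.mirror) :
    q = p ∨ q = -p ∨ q = p.mirror ∨ q = -p.mirror := by
  have hq : IsUnitTrinomial q := (isUnitTrinomial_iff'' hpq).mp hp
  obtain ⟨k, m, n, hkm, hmn, u, v, w, hp⟩ := hp
  obtain ⟨k', m', n', hkm', hmn', x, y, z, hq⟩ := hq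
  have hk : k = k' := by
    rw [← mul_right_inj' (show 2 ≠ 0 from two_ne_zero), ←
      trinomial_natTrailingDegree hkm hmn u.ne_zero, ← hp, ← natTrailingDegree_mul_mirror, hpq,
      natTrailingDegree_mul_mirror, hq, trinomial_natTrailingDegree hkm' hmn' x.ne_zero]
  have hn : n = n' := by
    rw [← mul_right_inj' (show 2 ≠ 0 from two_ne_zero), ← trinomial_natDegree hkm hmn w.ne_zero, ←
      hp, ← natDegree_mul_mirror, hpq, natDegree_mul_mirror, hq,
      trinomial_natDegree hkm' hmn' z.ne_zero]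
  subst hk
  subst hn
  rcases eq_or_eq_neg_of_sq_eq_sq (y : ℤ) (v : ℤ)
      ((Int.isUnit_sq y.isUnit).trans (Int.isUnit_sq v.isUnit).symm) with
    (h1 | h1)
  · rw [h1] at hq
    rcases IsUnitTrinomial.irreducible_aux3 hkm hmn hkm' hmn' u v w x z hp hq hpq with (h2 | h2)
    · exact Or.inl h2
    · exact Or.inr (Or.inr (Or.inl h2))
  · rw [h1] at hq
    rw [trinomial_def] at hp
    rw [← neg_inj, neg_add, neg_add, ← neg_mul, ← neg_mul, ← neg_mul, ← C_neg, ← C_neg, ← C_neg]
      at hp
    rw [← neg_mul_neg, ← mirror_neg] at hpq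
    rcases IsUnitTrinomial.irreducible_aux3 hkm hmn hkm' hmn' (-u) (-v) (-w) x z hp hq hpq with
      (rfl | rfl)
    · exact Or.inr (Or.inl rfl)
    · exact Or.inr (Or.inr (Or.inr p.mirror_neg))

/-- roots of the mirror polynomial -/
lemma mirror_root {K : Type*} [Field K] {p : ℤ[X]} {a : K} (ha : a ≠ 0) (h : aeval a p = 0) :
    aeval a⁻¹ p.mirror = 0 := by
  unfold mirror
  rw [map_mul]
  have h1 : aeval a⁻¹ p.reverse = 0 := by
    let _ : Invertible a := invertibleOfNonzero ha
    have h2 := (eval₂_reverse_eq_zero_iff (algebraMap ℤ K) a p).mpr h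
    rw [invOf_eq_inv] at h2
    exact h2
  rw [h1, zero_mul]

/-- the trinomial -/
noncomputable def ff (d : ℕ) : ℤ[X] := X ^ d - X ^ (d - 1) - 1

lemma ff_trinomial {d : ℕ} (hd : 2 ≤ d) : (ff d).IsUnitTrinomial := by
  refine ⟨0, d - 1, d, by omega, by omega, -1, -1, 1, ?_⟩
  rw [trinomial_def, ff]
  simp
  ring

lemma ff_monic {d : ℕ} (hd : 2 ≤ d) : (ff d).Monic := by
  have h : ff d = X ^ d + (-X ^ (d - 1) - 1) := by rw [ff]; ring
  rw [h]
  apply monic_X_pow_add
  refine lt_of_le_of_lt (degree_sub_le _ _) ?_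
  rw [max_lt_iff]
  constructor
  · rw [degree_neg, degree_X_pow]; exact_mod_cast (by omega : d - 1 < d)
  · rw [degree_one]; exact_mod_cast (by omega : 0 < d)

lemma aeval_ff {K : Type*} [Field K] (d : ℕ) (a : K) :
    aeval a (ff d) = a ^ d - a ^ (d - 1) - 1 := by
  simp [ff]

/-- A root of modulus larger than one of `X^d - X^(d-1) - 1` is conjugate to the real root. -/
theorem conj_root {d : ℕ} (hd : 3 ≤ d) {b : ℝ} (hb : 1 < b) (hbd : b ^ d - b ^ (d - 1) - 1 = 0)
    {x : ℂ} (hx : 1 < ‖x‖) (hxd : x ^ d - x ^ (d - 1) - 1 = 0) :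
    Irreducible (minpoly ℚ b) ∧ aeval x (minpoly ℚ b) = 0 := by
  have hint : IsIntegral ℤ b := by
    refine ⟨ff d, ff_monic (by omega), ?_⟩
    have := aeval_ff d b
    rw [hbd] at this
    exact this
  have hintQ : IsIntegral ℚ b := hint.tower_top
  refine ⟨minpoly.irreducible hintQ, ?_⟩
  obtain ⟨g, hg⟩ : minpoly ℤ b ∣ ff d :=
    minpoly.isIntegrallyClosed_dvd hint (by rw [aeval_ff, hbd])
  set h := minpoly ℤ b with hh
  have hf0 : ff d ≠ 0 := (ff_trinomial (by omega)).ne_zero
  have hh0 : h ≠ 0 := by rintro h0; rw [h0, zero_mul] at hg; exact hf0 hg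
  have hg0 : g ≠ 0 := by rintro h0; rw [h0, mul_zero] at hg; exact hf0 hg
  have hQ : minpoly ℚ b = h.map (algebraMap ℤ ℚ) := minpoly.isIntegrallyClosed_eq_field_fractions' ℚ hint
  have hxh : aeval x h = 0 := by
    have h1 : aeval x (ff d) = 0 := by rw [aeval_ff, hxd]
    rw [hg, map_mul, mul_eq_zero] at h1
    rcases h1 with h1 | h1
    · exact h1
    exfalso
    have hb0 : b ≠ 0 := by linarith
    have hx0 : x ≠ 0 := by
      rintro rfl; simp at hx; linarith
    -- the polynomial g * h.mirror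
    have hq : ff d * (ff d).mirror = (g * h.mirror) * (g * h.mirror).mirror := by
      rw [hg, mirror_mul_of_domain, mirror_mul_of_domain, mirror_mirror]; ring
    -- inverse of `b` is not a root
    have hbinv : aeval b⁻¹ (ff d) ≠ 0 := by
      rw [aeval_ff]
      have h2 : b⁻¹ ^ d ≤ b⁻¹ ^ (d - 1) := by
        apply pow_le_pow_of_le_one (by positivity) (inv_le_one_of_one_le₀ hb.le) (by omega)
      have : b⁻¹ ^ d - b⁻¹ ^ (d - 1) - 1 < 0 := by linarith
      exact this.ne
    -- inverse of `x` is not a root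
    have hxinv : aeval x⁻¹ (ff d) ≠ 0 := by
      rw [aeval_ff]
      intro h2
      obtain ⟨e, rfl⟩ : ∃ e, d = e + 2 := ⟨d - 2, by omega⟩
      have e1 : e + 2 - 1 = e + 1 := by omega
      rw [e1] at h2 hxd
      have h3 : 1 - x - x ^ (e + 2) = 0 := by
        have : x ^ (e + 2) * (x⁻¹ ^ (e + 2) - x⁻¹ ^ (e + 1) - 1) = 1 - x - x ^ (e + 2) := by
          have a1 : x ^ (e + 2) * x⁻¹ ^ (e + 2) = 1 := by
            rw [← mul_pow, mul_inv_cancel₀ hx0, one_pow]
          have a2 : x ^ (e + 1) * x⁻¹ ^ (e + 1) = 1 := by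
            rw [← mul_pow, mul_inv_cancel₀ hx0, one_pow]
          have a3 : x ^ (e + 2) = x ^ (e + 1) * x := pow_succ _ _
          linear_combination a1 - x * a2 - x⁻¹ ^ (e + 1) * a3
        rw [← this, h2, mul_zero]
      have h4 : x ^ (e + 1) + x = 0 := by linear_combination (-1) * hxd - h3
      have h5 : x * (x ^ e + 1) = 0 := by linear_combination h4
      have h6 : x ^ e = -1 := by
        rcases mul_eq_zero.mp h5 with h7 | h7
        · exact absurd h7 hx0
        · linear_combination h7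
      have h7 : ‖x‖ ^ e = 1 := by rw [← norm_pow, h6]; simp
      rcases Nat.eq_zero_or_pos e with h8 | h8
      · omega
      · have := one_lt_pow₀ hx (by omega : e ≠ 0)
        linarith
    have hbh : aeval b h = 0 := minpoly.aeval ℤ b
    have hbm := mirror_root hb0 hbh
    have hxm := mirror_root hx0 h1
    have hmh0 : h.mirror ≠ 0 := by rw [Ne, mirror_eq_zero]; exact hh0
    rcases four (ff_trinomial (by omega : 2 ≤ d)) hq with h2 | h2 | h2 | h2
    · have h3 : h.mirror = h := by
        apply mul_left_cancel₀ hg0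
        rw [h2, hg]; ring
      rw [h3] at hbm
      exact hbinv (by rw [hg, map_mul, hbm, zero_mul])
    · have h3 : h.mirror = -h := by
        apply mul_left_cancel₀ hg0
        rw [h2, hg]; ring
      rw [h3, map_neg, neg_eq_zero] at hbm
      exact hbinv (by rw [hg, map_mul, hbm, zero_mul])
    · have h3 : g.mirror = g := by
        apply mul_right_cancel₀ hmh0
        rw [h2, hg, mirror_mul_of_domain]; ring
      rw [h3] at hxm
      exact hxinv (by rw [hg, map_mul, hxm, mul_zero])
    · have h3 : g.mirror = -g := by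
        apply mul_right_cancel₀ hmh0
        rw [neg_mul, h2, hg, mirror_mul_of_domain]; ring
      rw [h3, map_neg, neg_eq_zero] at hxm
      exact hxinv (by rw [hg, map_mul, hxm, mul_zero])
  rw [hQ, aeval_map_algebraMap]
  exact hxh

end Q2.BP2
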