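import Pool.Agent.Q2.BP.Crit

/-!
# The criterion at the second nonzero digit
-/

namespace Q2.BP2

open Q2.BP Real

lemma orbit_start {β : ℝ} {γ : ℂ} (hβ : 1 < β) (hβ2 : β < 2) {n : ℕ}
    (hn1 : β ^ (n - 1) * (β - 1) < 1) : ∀ j : ℕ, j + 1 ≤ n →
    tt β (j + 1) = β ^ j * (β - 1) ∧ ww β γ (j + 1) = γ ^ j * (γ - 1) := by
  intro j
  induction j with
  | zero =>
    intro _
    have hd0 : dg β 0 = 1 := by
      unfold dg
      rw [Int.floor_eq_iff]; simp [tt]
      constructor <;> linarith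
    constructor
    · have := tt_succ β 0
      rw [this, hd0]; simp [tt]
    · have := ww_succ β γ 0
      rw [this, hd0]; simp [ww]
  | succ j ih =>
    intro hj
    obtain ⟨h1, h2⟩ := ih (by omega)
    have hd : dg β (j + 1) = 0 := by
      unfold dg
      rw [h1, Int.floor_eq_iff]
      have h3 : β * (β ^ j * (β - 1)) = β ^ (j + 1) * (β - 1) := by ring
      rw [h3]
      have h4 : β ^ (j + 1) ≤ β ^ (n - 1) := pow_le_pow_right₀ hβ.le (by omega)
      have h5 : β ^ (j + 1) * (β - 1) ≤ β ^ (n - 1) * (β - 1) :=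
        mul_le_mul_of_nonneg_right h4 (by linarith)
      have h6 : 0 ≤ β ^ (j + 1) * (β - 1) := mul_nonneg (by positivity) (by linarith)
      push_cast
      constructor <;> linarith
    constructor
    · rw [tt_succ, hd, h1]; push_cast; ring
    · rw [ww_succ, hd, h2]; push_cast; ring

/-- The criterion at the second nonzero digit, for `β < 2`. -/
theorem cross {β : ℝ} {γ : ℂ} (hR : 1 < ‖γ‖) (hRβ : ‖γ‖ ≤ β) (hβ2 : β < 2)
    {ε : ℝ} (hε : (β - ‖γ‖) / β ≤ ε) (hε1 : 0 < 1 - ε * (β - 1)) {n : ℕ} (hn : 1 ≤ n)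
    (hn1 : β ^ (n - 1) * (β - 1) < 1) (hn2 : 1 ≤ β ^ n * (β - 1))
    (hmain : (β - 1) + ε / (‖γ‖ - 1) < ‖γ ^ n * (γ - 1) - 1‖ * (1 - ε * (β - 1))) (M : ℝ) :
    ∃ n, M < ‖ww β γ n‖ := by
  have hβ : 1 < β := lt_of_lt_of_le hR hRβ
  have hβ0 : 0 < β := by linarith
  set R := ‖γ‖ with hRdef
  set a : ℝ := 1 / (1 - ε * (β - 1)) with ha
  set c : ℝ := a * ε / (R - 1) with hc
  have hR1 : 0 < R - 1 := by linarith
  have hε0 : 0 ≤ ε := le_trans (div_nonneg (by linarith) hβ0.le) hε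
  have ha0 : 0 < a := by rw [ha]; positivity
  have hc0 : 0 ≤ c := by rw [hc]; positivity
  have hcR : c * (R - 1) = a * ε := by rw [hc]; field_simp
  have haa : a * (1 - ε * (β - 1)) = 1 := by rw [ha]; field_simp
  have hS : β - R ≤ ε * β := by
    rw [div_le_iff₀ hβ0] at hε; exact hε
  obtain ⟨m, rfl⟩ : ∃ m, n = m + 1 := ⟨n - 1, by omega⟩
  have hm1 : m + 1 - 1 = m := by omega
  rw [hm1] at hn1
  obtain ⟨h1, h2⟩ := orbit_start (γ := γ) hβ hβ2 (n := m + 1) (by rw [hm1]; exact hn1) m le_rfl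
  have h3 : β * (β ^ m * (β - 1)) = β ^ (m + 1) * (β - 1) := by ring
  have h3' : β ^ (m + 1) * (β - 1) < β := by
    rw [← h3]
    calc β * (β ^ m * (β - 1)) < β * 1 := mul_lt_mul_of_pos_left hn1 hβ0
      _ = β := mul_one β
  have hd : dg β (m + 1) = 1 := by
    unfold dg
    rw [h1, Int.floor_eq_iff, h3]
    push_cast
    constructor <;> linarith
  have ht : tt β (m + 1 + 1) = β ^ (m + 1) * (β - 1) - 1 := by
    rw [tt_succ, hd, h1, h3]; push_cast; ring
  have hw : ww β γ (m + 1 + 1) = γ ^ (m + 1) * (γ - 1) - 1 := by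
    rw [ww_succ, hd, h2]; push_cast; ring
  refine escape hR ha0.le hc0 (pot_linear hβ hβ2 hS (by positivity) ha0.le ?_ ?_)
    (floor_nonneg_of hβ0.le) (m := m + 1 + 1) ?_ M
  · rw [hcR]; nlinarith
  · rw [hcR]; nlinarith
  · rw [ht, hw]
    have h4 : a * ((β - 1) + ε / (R - 1)) <
        a * (‖γ ^ (m + 1) * (γ - 1) - 1‖ * (1 - ε * (β - 1))) :=
      mul_lt_mul_of_pos_left hmain ha0
    have h5 : a * (‖γ ^ (m + 1) * (γ - 1) - 1‖ * (1 - ε * (β - 1)))
        = ‖γ ^ (m + 1) * (γ - 1) - 1‖ := by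
      linear_combination ‖γ ^ (m + 1) * (γ - 1) - 1‖ * haa
    rw [h5] at h4
    have h6 : a * ((β - 1) + ε / (R - 1)) = a * (β - 1) + c := by rw [hc]; ring
    have h7 : a * (β ^ (m + 1) * (β - 1) - 1) ≤ a * (β - 1) :=
      mul_le_mul_of_nonneg_left (by linarith) ha0.le
    linarith

/-- sums of powers lie in a cone -/
lemma cone {ρ θ : ℝ} (hρ : 0 ≤ ρ) (hθ : 0 < θ) {k : ℕ} (hk : 2 ≤ k)
    (hkθ : ((k : ℝ) - 1) * θ < π) : ∃ r σ : ℝ, 0 ≤ r ∧ 0 ≤ σ ∧ σ ≤ ((k : ℝ) - 1) * θ ∧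
    ∑ j ∈ Finset.range k, ((ρ : ℂ) * Complex.exp (θ * Complex.I)) ^ j =
      (r : ℂ) * Complex.exp (σ * Complex.I) := by
  set S : ℂ := ∑ j ∈ Finset.range k, ((ρ : ℂ) * Complex.exp (θ * Complex.I)) ^ j with hS
  have hk' : (2 : ℝ) ≤ k := by exact_mod_cast hk
  have hterm : ∀ j : ℕ, ((ρ : ℂ) * Complex.exp (θ * Complex.I)) ^ j
      = ((ρ ^ j : ℝ) : ℂ) * Complex.exp ((j * θ : ℝ) * Complex.I) := by
    intro j
    rw [mul_pow, ← Complex.exp_nat_mul]
    push_cast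
    ring_nf
  have him : 0 ≤ S.im := by
    rw [hS, Complex.im_sum]
    apply Finset.sum_nonneg
    intro j hj
    rw [hterm, Complex.im_ofReal_mul, Complex.exp_ofReal_mul_I_im]
    apply mul_nonneg (by positivity)
    have hj' : (j : ℝ) ≤ k - 1 := by
      have : j + 1 ≤ k := Finset.mem_range.mp hj
      have : (j : ℝ) + 1 ≤ k := by exact_mod_cast this
      linarith
    apply sin_nonneg_of_nonneg_of_le_pi (by positivity)
    have : (j : ℝ) * θ ≤ ((k : ℝ) - 1) * θ := mul_le_mul_of_nonneg_right hj' hθ.le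
    linarith
  have hS' : S = (‖S‖ : ℂ) * Complex.exp (S.arg * Complex.I) :=
    (Complex.norm_mul_exp_arg_mul_I S).symm
  have harg : 0 ≤ S.arg := Complex.arg_nonneg_iff.mpr him
  refine ⟨‖S‖, S.arg, norm_nonneg _, harg, ?_, hS'⟩
  have him2 : (S * Complex.exp ((-(((k : ℝ) - 1) * θ) : ℝ) * Complex.I)).im ≤ 0 := by
    rw [hS, Finset.sum_mul, Complex.im_sum]
    apply Finset.sum_nonpos
    intro j hj
    rw [hterm, mul_assoc, ← Complex.exp_add, ← add_mul, ← Complex.ofReal_add,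
      Complex.im_ofReal_mul, Complex.exp_ofReal_mul_I_im]
    have hj' : (j : ℝ) ≤ k - 1 := by
      have : j + 1 ≤ k := Finset.mem_range.mp hj
      have : (j : ℝ) + 1 ≤ k := by exact_mod_cast this
      linarith
    have h1 : (j : ℝ) * θ ≤ ((k : ℝ) - 1) * θ := mul_le_mul_of_nonneg_right hj' hθ.le
    have h2 : 0 ≤ (j : ℝ) * θ := by positivity
    have h3 : sin ((j : ℝ) * θ + -(((k : ℝ) - 1) * θ)) ≤ 0 :=
      sin_nonpos_of_nonpos_of_neg_pi_le (by linarith) (by linarith)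
    exact mul_nonpos_of_nonneg_of_nonpos (by positivity) h3
  by_contra hcon
  push Not at hcon
  rw [hS', mul_assoc, ← Complex.exp_add, ← add_mul, ← Complex.ofReal_add,
    Complex.im_ofReal_mul, Complex.exp_ofReal_mul_I_im] at him2
  have hkθ0 : 0 < ((k : ℝ) - 1) * θ := mul_pos (by linarith) hθ
  have h4 : 0 < sin (S.arg + -(((k : ℝ) - 1) * θ)) :=
    sin_pos_of_pos_of_lt_pi (by linarith) (by linarith [Complex.arg_le_pi S])
  have h5 : 0 < ‖S‖ := by
    rw [norm_pos_iff]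
    intro h0
    rw [h0, Complex.arg_zero] at hcon
    linarith
  have := mul_pos h5 h4
  linarith

/-- distance from one to a ray -/
lemma dist_ray {r Ω a1 a2 c : ℝ} (ha1 : 0 < a1) (ha2 : 0 < a2)
    (h1 : a1 ≤ Ω) (h2 : Ω ≤ 2 * π - a2) (hc0 : 0 ≤ c) (hc1 : c ≤ sin a1) (hc2 : c ≤ sin a2) :
    c ≤ ‖(r : ℂ) * Complex.exp (Ω * Complex.I) - 1‖ ∨ r < 0 := by
  by_cases hr : r < 0
  · exact Or.inr hr
  left
  push Not at hr
  have hsq : ‖(r : ℂ) * Complex.exp (Ω * Complex.I) - 1‖ ^ 2 = r ^ 2 - 2 * (r * cos Ω) + 1 := by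
    rw [← Complex.normSq_eq_norm_sq, Complex.normSq_apply]
    simp only [Complex.sub_re, Complex.sub_im, Complex.one_re, Complex.one_im, sub_zero,
      Complex.re_ofReal_mul, Complex.im_ofReal_mul, Complex.exp_ofReal_mul_I_re,
      Complex.exp_ofReal_mul_I_im]
    have := Real.sin_sq_add_cos_sq Ω
    linear_combination r ^ 2 * this
  apply le_of_sq_le_sq _ (norm_nonneg _)
  rw [hsq]
  have hc3 : c ≤ 1 := hc1.trans (sin_le_one _)
  by_cases hcos : cos Ω ≤ 0
  · have h3 : r * cos Ω ≤ 0 := mul_nonpos_of_nonneg_of_nonpos hr hcos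
    have h4 : c ^ 2 ≤ 1 := pow_le_one₀ hc0 hc3
    nlinarith [sq_nonneg r]
  · push Not at hcos
    have h5 : c ≤ |sin Ω| := by
      by_cases h6 : Ω < π / 2
      · have h7 : sin a1 ≤ sin Ω := by
          apply sin_le_sin_of_le_of_le_pi_div_two <;> linarith
        exact hc1.trans (h7.trans (le_abs_self _))
      · push Not at h6
        have h8 : 3 * π / 2 < Ω := by
          by_contra h9
          push Not at h9
          have := cos_nonpos_of_pi_div_two_le_of_le h6 (by linarith)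
          linarith
        have h7 : sin a2 ≤ sin (2 * π - Ω) := by
          apply sin_le_sin_of_le_of_le_pi_div_two <;> linarith
        have h9 : sin (2 * π - Ω) = - sin Ω := Real.sin_two_pi_sub Ω
        rw [h9] at h7
        exact hc2.trans (h7.trans (neg_le_abs _))
    have h6 : c ^ 2 ≤ sin Ω ^ 2 := by
      rw [← sq_abs (sin Ω)]
      exact pow_le_pow_left₀ hc0 h5 2
    have h7 := Real.sin_sq_add_cos_sq Ω
    nlinarith [sq_nonneg (r - cos Ω)]

end Q2.BP2
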