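import Pool.Agent.Q2.BP2.Num

/-!
# Numerical lemmas for the crossing step
-/

namespace Q2.BP2

open Real

/-- lower bound of `log k` -/
lemma logk {k : ℕ} {τ L z : ℝ} (hk : 2 ≤ k) (hτ0 : 0 < τ) (hτ : τ ≤ exp (-L)) (hz : z = k * τ) :
    L + log z ≤ log k := by
  have hk0 : (0 : ℝ) < k := by
    have : (2 : ℝ) ≤ k := by exact_mod_cast hk
    linarith
  have hz0 : 0 < z := by rw [hz]; positivity
  have h1 : z * exp L ≤ k := by
    have h2 : z * exp L ≤ k * exp (-L) * exp L := by
      rw [hz]
      have := Real.exp_pos L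
      gcongr
    have h3 : (k : ℝ) * exp (-L) * exp L = k := by
      rw [mul_assoc, ← Real.exp_add]; simp
    linarith
  have h2 := Real.log_le_log (by positivity) h1
  rw [Real.log_mul hz0.ne' (Real.exp_pos L).ne', Real.log_exp] at h2
  linarith

/-- the angle at the upper end: the condition (ii) in region (a) -/
lemma ca2 {k : ℕ} {τ L z y2 E : ℝ} (hk : 2 ≤ k) (hτ0 : 0 < τ) (hτ : τ ≤ exp (-L))
    (hz : z = k * τ) (hL1 : 3.68 ≤ L) (hL2 : L ≤ 5.49) (hz1 : z ≤ 0.45)
    (hy2 : y2 = log k - 2 * z) (hE : 0.958 ≤ E) :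
    1.27 * z * L + 0.7092 < 3 * y2 * E ∧ 0 < y2 := by
  have hk0 : (2 : ℝ) ≤ k := by exact_mod_cast hk
  have hz0 : 0 < z := by rw [hz]; positivity
  have hlk := logk hk hτ0 hτ hz
  -- it suffices to have a lower bound of y2
  have key : ∀ Y : ℝ, Y ≤ y2 → 0 ≤ Y → 1.27 * z * L + 0.7092 < 3 * Y * 0.958 →
      1.27 * z * L + 0.7092 < 3 * y2 * E ∧ 0 < y2 := by
    intro Y hY hY0 h
    have h1 : 3 * Y * 0.958 ≤ 3 * y2 * E := by
      apply mul_le_mul (by linarith) hE (by norm_num) (by linarith)
    refine ⟨by linarith, ?_⟩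
    have h2 : 0 < 1.27 * z * L + 0.7092 := by positivity
    by_contra h3
    push Not at h3
    have : 3 * y2 * E ≤ 0 := by
      have : 3 * y2 ≤ 0 := by linarith
      exact mul_nonpos_of_nonpos_of_nonneg this (by linarith)
    linarith
  by_cases h1 : z < 0.05
  · have h2 : log 2 ≤ log k := Real.log_le_log (by norm_num) hk0
    have h3 := Real.log_two_gt_d9
    apply key 0.593 (by rw [hy2]; linarith) (by norm_num)
    have h4 : z * L ≤ 0.05 * 5.49 := mul_le_mul h1.le hL2 (by linarith) (by norm_num)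
    have h5 : 1.27 * z * L = 1.27 * (z * L) := by ring
    rw [h5]
    norm_num at h4 ⊢
    linarith
  push Not at h1
  by_cases h2 : z < 0.08
  · have h3 := log_ge (a := 0.05) (by norm_num) 3 1 (by norm_num) (by norm_num)
    have h4 : log 0.05 ≤ log z := Real.log_le_log (by norm_num) h1
    norm_num at h3
    have h5 : L - 3.16 ≤ y2 := by rw [hy2]; norm_num at h4 ⊢; linarith
    apply key (L - 3.16) h5 (by linarith)
    have h6 : z * L ≤ 0.08 * L := mul_le_mul_of_nonneg_right h2.le (by linarith)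
    have h7 : 1.27 * z * L = 1.27 * (z * L) := by ring
    rw [h7]; linarith
  push Not at h2
  by_cases h3 : z < 0.15
  · have h4 := log_ge (a := 0.08) (by norm_num) 38 15 (by norm_num) (by norm_num)
    have h5 : log 0.08 ≤ log z := Real.log_le_log (by norm_num) h2
    norm_num at h4
    have h6 : L - 2.834 ≤ y2 := by rw [hy2]; norm_num at h5 ⊢; linarith
    apply key (L - 2.834) h6 (by linarith)
    have h7 : z * L ≤ 0.15 * L := mul_le_mul_of_nonneg_right h3.le (by linarith)
    have h8 : 1.27 * z * L = 1.27 * (z * L) := by ring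
    rw [h8]; linarith
  push Not at h3
  by_cases h4 : z < 0.3
  · have h5 := log_ge (a := 0.15) (by norm_num) 19 10 (by norm_num) (by norm_num)
    have h6 : log 0.15 ≤ log z := Real.log_le_log (by norm_num) h3
    norm_num at h5
    have h7 : L - 2.5 ≤ y2 := by rw [hy2]; norm_num at h6 ⊢; linarith
    apply key (L - 2.5) h7 (by linarith)
    have h8 : z * L ≤ 0.3 * L := mul_le_mul_of_nonneg_right h4.le (by linarith)
    have h9 : 1.27 * z * L = 1.27 * (z * L) := by ring
    rw [h9]; linarith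
  push Not at h4
  have h5 := log_ge (a := 0.3) (by norm_num) 11 9 (by norm_num) (by norm_num)
  have h6 : log 0.3 ≤ log z := Real.log_le_log (by norm_num) h4
  norm_num at h5
  have h7 : L - 2.123 ≤ y2 := by rw [hy2]; norm_num at h6 ⊢; linarith
  apply key (L - 2.123) h7 (by linarith)
  have h8 : z * L ≤ 0.45 * L := mul_le_mul_of_nonneg_right hz1 (by linarith)
  have h9 : 1.27 * z * L = 1.27 * (z * L) := by ring
  rw [h9]; linarith

/-- the condition (ii) in region (b) -/
lemma cb2 {k : ℕ} {τ L z y2 E : ℝ} (hk : 2 ≤ k) (hτ0 : 0 < τ) (hτ : τ ≤ exp (-L))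
    (hz : z = k * τ) (hL1 : 5.49 ≤ L) (hz1 : z * L ≤ 1.9)
    (hy2 : y2 = log k - 2 * z) (hE : 0.9888 ≤ E) :
    1.2 * (z * L) + 0.4606 < 3 * y2 * E ∧ 0 < y2 := by
  have hk0 : (2 : ℝ) ≤ k := by exact_mod_cast hk
  have hz0 : 0 < z := by rw [hz]; positivity
  have hlk := logk hk hτ0 hτ hz
  have key : ∀ Y : ℝ, Y ≤ y2 → 0 ≤ Y → 1.2 * (z * L) + 0.4606 < 3 * Y * 0.9888 →
      1.2 * (z * L) + 0.4606 < 3 * y2 * E ∧ 0 < y2 := by
    intro Y hY hY0 h
    have h1 : 3 * Y * 0.9888 ≤ 3 * y2 * E := by
      apply mul_le_mul (by linarith) hE (by norm_num) (by linarith)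
    refine ⟨by linarith, ?_⟩
    have hzL : 0 < z * L := mul_pos hz0 (by linarith)
    by_contra h3
    push Not at h3
    have : 3 * y2 * E ≤ 0 := by
      have : 3 * y2 ≤ 0 := by linarith
      exact mul_nonpos_of_nonpos_of_nonneg this (by linarith)
    linarith
  have hz3 : z ≤ 0.3461 := by
    by_contra h
    push Not at h
    have : 0.3461 * 5.49 ≤ z * L := mul_le_mul h.le hL1 (by norm_num) hz0.le
    norm_num at this
    linarith
  by_cases h1 : z < 0.05
  · by_cases h2 : z * L ≤ 1
    · have h3 : log 2 ≤ log k := Real.log_le_log (by norm_num) hk0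
      have h4 := Real.log_two_gt_d9
      apply key 0.593 (by rw [hy2]; linarith) (by norm_num)
      linarith
    · push Not at h2
      have h3 : log (1 / L) ≤ log z := by
        apply Real.log_le_log (by positivity)
        rw [div_le_iff₀ (by linarith)]; linarith
      rw [one_div, Real.log_inv] at h3
      have h4 := log_le_div_e (y := L) (by linarith)
      apply key 3 (by rw [hy2]; linarith) (by norm_num)
      linarith
  push Not at h1
  have h3 := log_ge (a := 0.05) (by norm_num) 3 1 (by norm_num) (by norm_num)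
  have h4 : log 0.05 ≤ log z := Real.log_le_log (by norm_num) h1
  norm_num at h3
  have h5 : (1.79 : ℝ) ≤ y2 := by rw [hy2]; norm_num at h4 ⊢; linarith
  apply key 1.79 h5 (by norm_num)
  linarith

end Q2.BP2
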