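import Pool.Agent.Q2.BP.Crit

/-!
# Real inequalities for the criterion at the first step
-/

namespace Q2.BP2

open Real

/-- the reduction of the criterion -/
lemma fs_real {A ε B G S X : ℝ} (hA : 0 < A) (hA1 : A ≤ 1) (hε0 : 0 ≤ ε) (hε1 : ε < 1)
    (hB : (1 + B) * (1 - ε) = 1 + A) (hD : 0 < 1 - ε * (1 + A + ε)) (hG0 : 0 ≤ G)
    (hG : G ^ 2 = A ^ 2 + 4 * (1 + A) * S) (hX : X * (1 - ε * (1 + A + ε)) = ε * (1 + A ^ 2))
    (hmain : 2 * X + X ^ 2 * (1 + A) / A ^ 2 < 4 * S) :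
    B + ε / A < G * (1 - ε * B) ∧ 0 < 1 - ε * B := by
  set D : ℝ := 1 - ε * (1 + A + ε) with hDdef
  have h1ε : 0 < 1 - ε := by linarith
  have hX0 : 0 ≤ X := by
    have : 0 ≤ X * D := by rw [hX]; positivity
    exact nonneg_of_mul_nonneg_left this hD
  have h1 : (1 - ε * B) * (1 - ε) = D := by
    rw [hDdef]; linear_combination (-ε) * hB
  have hpos : 0 < 1 - ε * B := by
    have : 0 < (1 - ε * B) * (1 - ε) := by rw [h1]; exact hD
    exact (mul_pos_iff_of_pos_right h1ε).mp this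
  refine ⟨?_, hpos⟩
  -- main inequality
  have h2 : A ^ 2 + (1 + A) * X < G * A := by
    have h3 : (A ^ 2 + (1 + A) * X) ^ 2 < (G * A) ^ 2 := by
      rw [mul_pow, hG]
      have hA2 : 0 < A ^ 2 := by positivity
      have h4 : A ^ 2 * (2 * X + X ^ 2 * (1 + A) / A ^ 2) = 2 * X * A ^ 2 + X ^ 2 * (1 + A) := by
        field_simp
      have h5 : A ^ 2 * (2 * X + X ^ 2 * (1 + A) / A ^ 2) < A ^ 2 * (4 * S) :=
        mul_lt_mul_of_pos_left hmain hA2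
      rw [h4] at h5
      have h6 : (A ^ 2 + (1 + A) * X) ^ 2 =
          A ^ 2 * A ^ 2 + (1 + A) * (2 * X * A ^ 2 + X ^ 2 * (1 + A)) := by ring
      have h7 : (A ^ 2 + 4 * (1 + A) * S) * A ^ 2 =
          A ^ 2 * A ^ 2 + (1 + A) * (A ^ 2 * (4 * S)) := by ring
      rw [h6, h7]
      have h8 : 0 < 1 + A := by linarith
      have := mul_lt_mul_of_pos_left h5 h8
      linarith
    exact lt_of_pow_lt_pow_left₀ 2 (by positivity) h3
  -- multiply
  have h3 : (B + ε / A) * ((1 - ε) * A) = A ^ 2 * D + ε * ((1 + A) * (1 + A ^ 2) - ε * (1 - A ^ 2)) := by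
    have h4 : (B + ε / A) * ((1 - ε) * A) = A * (B * (1 - ε)) + ε * (1 - ε) := by
      field_simp
    have h5 : B * (1 - ε) = A + ε := by linear_combination hB
    rw [h4, h5, hDdef]; ring
  have h4 : (B + ε / A) * ((1 - ε) * A) ≤ D * (A ^ 2 + (1 + A) * X) := by
    rw [h3]
    have h5 : 0 ≤ ε * (ε * (1 - A ^ 2)) := by
      have : 0 ≤ 1 - A ^ 2 := by nlinarith
      positivity
    have h6 : D * (A ^ 2 + (1 + A) * X) = A ^ 2 * D + (1 + A) * (X * D) := by ring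
    rw [h6, hX]
    nlinarith
  have h5 : D * (A ^ 2 + (1 + A) * X) < D * (G * A) := mul_lt_mul_of_pos_left h2 hD
  have h6 : D * (G * A) = G * (1 - ε * B) * ((1 - ε) * A) := by rw [← h1]; ring
  have h7 : (B + ε / A) * ((1 - ε) * A) < G * (1 - ε * B) * ((1 - ε) * A) := by
    rw [← h6]; linarith
  exact lt_of_mul_lt_mul_right h7 (by positivity)

/-- numerical form of the criterion -/
lemma fs_num {A ε B G ψ ν c1 c2 D0 A1 : ℝ} (hA : 0 < A) (hA1 : A ≤ A1) (hA2 : A1 ≤ 1)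
    (hε0 : 0 ≤ ε) (hε1 : ε < 1)
    (hB : (1 + B) * (1 - ε) = 1 + A) (hD0 : 0 < D0) (hD : D0 ≤ 1 - ε * (1 + A + ε))
    (hG0 : 0 ≤ G) (hG : G ^ 2 = A ^ 2 + 4 * (1 + A) * sin (ψ / 2) ^ 2)
    (hψ1 : |ψ| ≤ 1) (hψ0 : 0 < ψ) (hεν : ε ≤ ν * ψ ^ 2)
    (hc1 : 1 + A1 ^ 2 ≤ c1 * D0)
    (hc2 : ε * (1 + A) * (1 + A ^ 2) ≤ c2 * D0 * A ^ 2) (hc20 : 0 ≤ c2)
    (hfin : ν * c1 * (2 + c2) < 1 - ψ ^ 2 / 9) :
    B + ε / A < G * (1 - ε * B) ∧ 0 < 1 - ε * B := by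
  set D : ℝ := 1 - ε * (1 + A + ε) with hDdef
  have hDpos : 0 < D := lt_of_lt_of_le hD0 hD
  set X : ℝ := ε * (1 + A ^ 2) / D with hX
  have hXD : X * D = ε * (1 + A ^ 2) := by rw [hX]; field_simp
  have hX0 : 0 ≤ X := by rw [hX]; positivity
  have hc10 : 0 ≤ c1 := by
    by_contra h
    push Not at h
    have : c1 * D0 < 0 := mul_neg_of_neg_of_pos h hD0
    nlinarith [sq_nonneg A1]
  have hXc : X ≤ ε * c1 := by
    rw [hX, div_le_iff₀ hDpos]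
    have h1 : 1 + A ^ 2 ≤ c1 * D := by
      have h2 : A ^ 2 ≤ A1 ^ 2 := pow_le_pow_left₀ hA.le hA1 2
      have h3 : c1 * D0 ≤ c1 * D := mul_le_mul_of_nonneg_left hD hc10
      linarith
    calc ε * (1 + A ^ 2) ≤ ε * (c1 * D) := mul_le_mul_of_nonneg_left h1 hε0
      _ = ε * c1 * D := by ring
  have hX2 : X * (1 + A) / A ^ 2 ≤ c2 := by
    rw [div_le_iff₀ (by positivity)]
    have h1 : X * (1 + A) * D ≤ c2 * A ^ 2 * D := by
      have h2 : X * (1 + A) * D = ε * (1 + A) * (1 + A ^ 2) := by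
        have : X * (1 + A) * D = (X * D) * (1 + A) := by ring
        rw [this, hXD]; ring
      rw [h2]
      refine hc2.trans ?_
      have : c2 * A ^ 2 * D0 ≤ c2 * A ^ 2 * D := mul_le_mul_of_nonneg_left hD (by positivity)
      linarith
    exact le_of_mul_le_mul_right h1 hDpos
  have hmain : 2 * X + X ^ 2 * (1 + A) / A ^ 2 < 4 * sin (ψ / 2) ^ 2 := by
    have h1 : 2 * X + X ^ 2 * (1 + A) / A ^ 2 = X * (2 + X * (1 + A) / A ^ 2) := by ring
    rw [h1]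
    have h2 : X * (2 + X * (1 + A) / A ^ 2) ≤ ε * c1 * (2 + c2) := by
      apply mul_le_mul hXc (by linarith) (by positivity) (by positivity)
    have h3 : ε * c1 * (2 + c2) ≤ ν * ψ ^ 2 * c1 * (2 + c2) := by gcongr
    have h4 : ν * ψ ^ 2 * c1 * (2 + c2) = ψ ^ 2 * (ν * c1 * (2 + c2)) := by ring
    have hψ2 : 0 < ψ ^ 2 := by positivity
    have h5 : ψ ^ 2 * (ν * c1 * (2 + c2)) < ψ ^ 2 * (1 - ψ ^ 2 / 9) :=
      mul_lt_mul_of_pos_left hfin hψ2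
    have h6 : ψ ^ 2 * (1 - ψ ^ 2 / 9) ≤ 4 * sin (ψ / 2) ^ 2 := by
      have h7 := Real.cos_bound hψ1
      rw [abs_le] at h7
      have h8 : cos ψ = 1 - 2 * sin (ψ / 2) ^ 2 := by
        have := Real.cos_two_mul (ψ / 2)
        have h9 := Real.sin_sq_add_cos_sq (ψ / 2)
        rw [show 2 * (ψ / 2) = ψ by ring] at this
        linarith
      have h10 : |ψ| ^ 4 = ψ ^ 4 := by rw [abs_of_pos hψ0]
      rw [h10] at h7
      have h11 : ψ ^ 4 = ψ ^ 2 * ψ ^ 2 := by ring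
      have h12 : 0 ≤ ψ ^ 4 := by positivity
      nlinarith
    linarith
  exact fs_real hA (hA1.trans hA2) hε0 hε1 hB hDpos hG0 hG hXD hmain

end Q2.BP2
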