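import Pool.Agent.Q2.BP2.FS

/-!
# Numerical lemmas
-/

namespace Q2.BP2

open Real

lemma exp_up {z : ℝ} (h0 : 0 ≤ z) (h1 : z ≤ 1) :
    exp z ≤ 1 + z + z ^ 2 / 2 + 2 / 9 * z ^ 3 := by
  have h := Real.exp_bound' h0 h1 (n := 3) (by norm_num)
  simp only [Finset.sum_range_succ, Finset.sum_range_zero, Nat.factorial] at h
  norm_num at h
  linarith

lemma exp_low {z : ℝ} (h0 : 0 ≤ z) : 1 + z + z ^ 2 / 2 ≤ exp z :=
  Real.quadratic_le_exp_of_nonneg h0

lemma one_sub_exp_le (y : ℝ) : 1 - exp (-y) ≤ y := by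
  have := Real.add_one_le_exp (-y)
  linarith

/-- `log a ≥ -m/n` -/
lemma log_ge {a : ℝ} (ha : 0 < a) (m n : ℕ) (hn : 0 < n) (h : (1 / a) ^ n ≤ 2.7182818283 ^ m) :
    -((m : ℝ) / n) ≤ log a := by
  have h1 : (1 / a) ^ n ≤ exp m := by
    have h2 : exp (m : ℝ) = exp 1 ^ m := by rw [← Real.exp_nat_mul, mul_one]
    rw [h2]
    refine h.trans ?_
    have := Real.exp_one_gt_d9
    gcongr
  have h2 : log ((1 / a) ^ n) ≤ m := by
    rw [Real.log_le_iff_le_exp (by positivity)]; exact h1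
  rw [Real.log_pow, one_div, Real.log_inv] at h2
  have hn' : (0 : ℝ) < n := by exact_mod_cast hn
  rw [neg_le, le_div_iff₀ hn']
  linarith

lemma log_le_div_e {y : ℝ} (hy : 0 < y) : log y ≤ 0.36789 * y := by
  have h1 : log (y / exp 1) ≤ y / exp 1 - 1 := Real.log_le_sub_one_of_pos (by positivity)
  rw [Real.log_div hy.ne' (Real.exp_pos 1).ne', Real.log_exp] at h1
  have h2 : y / exp 1 ≤ 0.36789 * y := by
    rw [div_le_iff₀ (Real.exp_pos 1)]
    have := Real.exp_one_gt_d9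
    nlinarith
  linarith

/-- common facts -/
lemma common {z s A ε B : ℝ} (hz0 : 0 < z) (hs0 : 0 ≤ s) (hs1 : s < 1)
    (hA : A = exp ((1 - s) * z) - 1) (hε : ε = 1 - exp (-(s * z))) (hB : B = exp z - 1) :
    0 < A ∧ 0 ≤ ε ∧ ε < 1 ∧ ε ≤ s * z ∧ (1 + B) * (1 - ε) = 1 + A ∧
      (1 - s) * z + ((1 - s) * z) ^ 2 / 2 ≤ A ∧ A ≤ B ∧ 0 < B := by
  have hw : 0 < (1 - s) * z := mul_pos (by linarith) hz0
  have h1 := exp_low hw.le
  refine ⟨?_, ?_, ?_, ?_, ?_, by linarith, ?_, ?_⟩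
  · rw [hA]; nlinarith
  · rw [hε, sub_nonneg, Real.exp_le_one_iff]
    have := mul_nonneg hs0 hz0.le
    linarith
  · rw [hε]; have := Real.exp_pos (-(s * z)); linarith
  · rw [hε]; exact one_sub_exp_le _
  · rw [hB, hε, hA]
    have : exp ((1 - s) * z) = exp z * exp (-(s * z)) := by
      rw [← Real.exp_add]; congr 1; ring
    rw [this]; ring
  · rw [hA, hB]
    have : exp ((1 - s) * z) ≤ exp z := by
      apply Real.exp_le_exp.mpr
      nlinarith
    linarith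
  · rw [hB]; have := Real.add_one_le_exp z; linarith

/-- first step, region (a) -/
lemma fsa {z s q A ε B G : ℝ} (hz1 : 0.45 ≤ z) (hz2 : (1 - s) * z ≤ 0.482) (hs0 : 0 ≤ s)
    (hs : s ≤ 0.1616) (hsq : s ≤ 0.084886 * q ^ 2) (hq0 : 0 < q) (hq : q ≤ 1.494)
    (hA : A = exp ((1 - s) * z) - 1) (hA1 : A ≤ 0.6181) (hε : ε = 1 - exp (-(s * z)))
    (hB : B = exp z - 1) (hG0 : 0 ≤ G) (hG : G ^ 2 = A ^ 2 + 4 * (1 + A) * sin (q * z / 2) ^ 2) :
    B + ε / A < G * (1 - ε * B) ∧ 0 < 1 - ε * B := by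
  obtain ⟨hA0, hε0, hε1, hεz, hBA, hAlow, _, _⟩ := common (by linarith) hs0 (by linarith) hA hε hB
  have hz3 : z ≤ 0.575 := by
    have h1 : 0.8384 * z ≤ (1 - s) * z := mul_le_mul_of_nonneg_right (by linarith) (by linarith)
    linarith
  have hε2 : ε ≤ 0.09292 := by
    have : s * z ≤ 0.1616 * 0.575 := by
      apply mul_le_mul hs hz3 (by linarith) (by norm_num)
    norm_num at this ⊢
    linarith
  have hw : 0.8384 * z ≤ (1 - s) * z := mul_le_mul_of_nonneg_right (by linarith) (by linarith)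
  have hw2 : 0.37728 ≤ (1 - s) * z := by linarith
  have hA4 : 0.9965 * z ≤ A := by
    have h1 : (1 - s) * z + ((1 - s) * z) ^ 2 / 2 = ((1 - s) * z) * (1 + (1 - s) * z / 2) := by
      ring
    have h2 : (0.8384 * z) * 1.1886 ≤ ((1 - s) * z) * (1 + (1 - s) * z / 2) := by
      apply mul_le_mul hw (by linarith) (by norm_num) (by linarith)
    linarith
  have hA5 : 0.448 ≤ A := by linarith
  have hεA : ε ≤ 0.1622 * A := by
    have h1 : s * z ≤ 0.1616 * z := mul_le_mul_of_nonneg_right hs (by linarith)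
    linarith
  have hψ : q * z ≤ 0.86 := by
    have : q * z ≤ 1.494 * 0.575 := mul_le_mul hq hz3 (by linarith) (by norm_num)
    norm_num at this ⊢
    linarith
  have hψ0 : 0 < q * z := mul_pos hq0 (by linarith)
  refine fs_num (ψ := q * z) (ν := 0.1887) (c1 := 1.6435) (c2 := 0.78) (D0 := 0.841)
    (A1 := 0.6181) hA0 hA1 (by norm_num) hε0 hε1 hBA (by norm_num) ?_ hG0 hG ?_ hψ0 ?_ (by norm_num)
    ?_ (by norm_num) ?_
  · have h1 : ε * (1 + A + ε) ≤ 0.09292 * (1 + 0.6181 + 0.09292) := by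
      apply mul_le_mul hε2 (by linarith) (by linarith) (by norm_num)
    norm_num at h1 ⊢
    linarith
  · rw [abs_of_pos hψ0]; linarith
  · have h1 : s * z ≤ 0.084886 * q ^ 2 * z := mul_le_mul_of_nonneg_right hsq (by linarith)
    have h2 : 0.084886 * q ^ 2 * z ≤ 0.1887 * (q * z) ^ 2 := by
      have h3 : 0.1887 * (q * z) ^ 2 = (0.1887 * z) * (q ^ 2 * z) := by ring
      have h4 : 0.084886 * q ^ 2 * z = 0.084886 * (q ^ 2 * z) := by ring
      rw [h3, h4]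
      apply mul_le_mul_of_nonneg_right _ (by positivity)
      linarith
    linarith
  · have h1 : ε * (1 + A) * (1 + A ^ 2) ≤ 0.1622 * A * ((1 + A) * (1 + A ^ 2)) := by
      have : ε * (1 + A) * (1 + A ^ 2) = ε * ((1 + A) * (1 + A ^ 2)) := by ring
      rw [this]
      exact mul_le_mul_of_nonneg_right hεA (by positivity)
    have h2 : (1 + A) * (1 + A ^ 2) ≤ 4.044 * A := by
      have h3 : 0 ≤ (A - 0.448) * (0.6181 - A) := mul_nonneg (by linarith) (by linarith)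
      nlinarith [mul_nonneg h3 hA0.le]
    have h3 : 0.1622 * A * ((1 + A) * (1 + A ^ 2)) ≤ 0.1622 * A * (4.044 * A) :=
      mul_le_mul_of_nonneg_left h2 (by positivity)
    have h4 : 0.1622 * A * (4.044 * A) ≤ 0.78 * 0.841 * A ^ 2 := by
      have : 0 ≤ A ^ 2 := sq_nonneg A
      nlinarith
    linarith
  · have h1 : (q * z) ^ 2 ≤ 0.86 ^ 2 := pow_le_pow_left₀ hψ0.le hψ 2
    norm_num at h1 ⊢
    linarith

/-- first step, region (b), small `z` -/
lemma fsb1 {z s q A ε B G L : ℝ} (hL : 5.49 ≤ L) (hz1 : 1.9 ≤ z * L) (hz2 : z ≤ 0.35)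
    (hs0 : 0 ≤ s) (hs : s ≤ 0.0775) (hsq : s * (2 * L) ≤ q ^ 2) (hq0 : 0 < q) (hq : q ≤ 1.1446)
    (hA : A = exp ((1 - s) * z) - 1) (hε : ε = 1 - exp (-(s * z)))
    (hB : B = exp z - 1) (hG0 : 0 ≤ G) (hG : G ^ 2 = A ^ 2 + 4 * (1 + A) * sin (q * z / 2) ^ 2) :
    B + ε / A < G * (1 - ε * B) ∧ 0 < 1 - ε * B := by
  have hz0 : 0 < z := by
    by_contra h
    push Not at h
    have : z * L ≤ 0 := mul_nonpos_of_nonpos_of_nonneg h (by linarith)
    linarith
  obtain ⟨hA0, hε0, hε1, hεz, hBA, hAlow, hAB, _⟩ := common hz0 hs0 (by linarith) hA hε hB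
  have hB1 : B ≤ 0.421 := by
    have h1 := exp_up hz0.le (by linarith)
    have h2 : z ^ 2 ≤ 0.35 ^ 2 := pow_le_pow_left₀ hz0.le hz2 2
    have h3 : z ^ 3 ≤ 0.35 ^ 3 := pow_le_pow_left₀ hz0.le hz2 3
    rw [hB]
    norm_num at h2 h3 ⊢
    linarith
  have hA1 : A ≤ 0.421 := by linarith
  have hε2 : ε ≤ 0.0272 := by
    have : s * z ≤ 0.0775 * 0.35 := by
      apply mul_le_mul hs hz2 hz0.le (by norm_num)
    norm_num at this ⊢
    linarith
  -- ε ≤ q²z²/3.8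
  have hεq : ε ≤ (q * z) ^ 2 / 3.8 := by
    have h1 : s * (2 * L) * z ≤ q ^ 2 * z := mul_le_mul_of_nonneg_right hsq hz0.le
    have h2 : s * (2 * L) * z * z ≤ q ^ 2 * z * z := mul_le_mul_of_nonneg_right h1 hz0.le
    have h3 : s * z * 3.8 ≤ s * (2 * L) * z * z := by
      have h4 : s * (2 * L) * z * z = (s * z) * (2 * (z * L)) := by ring
      rw [h4]
      apply mul_le_mul_of_nonneg_left _ (mul_nonneg hs0 hz0.le)
      linarith
    rw [le_div_iff₀ (by norm_num)]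
    have h5 : (q * z) ^ 2 = q ^ 2 * z * z := by ring
    rw [h5]
    have h6 : ε * 3.8 ≤ s * z * 3.8 := by linarith
    linarith
  have hA3 : 0.9225 * z ≤ A := by
    have h1 : 0.9225 * z ≤ (1 - s) * z := mul_le_mul_of_nonneg_right (by linarith) hz0.le
    have h2 : 0 ≤ ((1 - s) * z) ^ 2 / 2 := by positivity
    linarith
  have hψ : q * z ≤ 0.4007 := by
    have : q * z ≤ 1.1446 * 0.35 := mul_le_mul hq hz2 hz0.le (by norm_num)
    norm_num at this ⊢
    linarith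
  have hψ0 : 0 < q * z := mul_pos hq0 hz0
  refine fs_num (ψ := q * z) (ν := 0.2632) (c1 := 1.2264) (c2 := 0.71) (D0 := 0.96)
    (A1 := 0.421) hA0 hA1 (by norm_num) hε0 hε1 hBA (by norm_num) ?_ hG0 hG ?_ hψ0 ?_ (by norm_num)
    ?_ (by norm_num) ?_
  · have h1 : ε * (1 + A + ε) ≤ 0.0272 * (1 + 0.421 + 0.0272) := by
      apply mul_le_mul hε2 (by linarith) (by linarith) (by norm_num)
    norm_num at h1 ⊢
    linarith
  · rw [abs_of_pos hψ0]; linarith
  · have h1 : 0 ≤ (q * z) ^ 2 := sq_nonneg _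
    have h2 : ε * 3.8 ≤ (q * z) ^ 2 := (le_div_iff₀ (by norm_num)).mp hεq
    linarith
  · have h1 : (q * z) ^ 2 ≤ 1.1446 ^ 2 * z ^ 2 := by
      rw [mul_pow]
      apply mul_le_mul_of_nonneg_right (pow_le_pow_left₀ hq0.le hq 2) (sq_nonneg z)
    have h2 : (0.9225 * z) ^ 2 ≤ A ^ 2 := pow_le_pow_left₀ (by positivity) hA3 2
    have h3 : ε ≤ 0.4052 * A ^ 2 := by
      have h4 : ε ≤ 1.1446 ^ 2 * z ^ 2 / 3.8 := by
        refine hεq.trans ?_
        apply div_le_div_of_nonneg_right h1 (by norm_num)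
      have h5 : (0.9225 * z) ^ 2 = 0.9225 ^ 2 * z ^ 2 := by ring
      rw [h5] at h2
      have h6 : 0 ≤ z ^ 2 := sq_nonneg z
      norm_num at h4 h2 ⊢
      linarith
    have h4 : (1 + A) * (1 + A ^ 2) ≤ (1 + 0.421) * (1 + 0.421 ^ 2) := by
      apply mul_le_mul (by linarith) _ (by positivity) (by norm_num)
      have := pow_le_pow_left₀ hA0.le hA1 2
      linarith
    have h5 : ε * (1 + A) * (1 + A ^ 2) ≤ 0.4052 * A ^ 2 * ((1 + 0.421) * (1 + 0.421 ^ 2)) := by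
      have : ε * (1 + A) * (1 + A ^ 2) = ε * ((1 + A) * (1 + A ^ 2)) := by ring
      rw [this]
      exact mul_le_mul h3 h4 (by positivity) (by positivity)
    have h6 : 0 ≤ A ^ 2 := sq_nonneg A
    norm_num at h5 ⊢
    linarith
  · have h1 : (q * z) ^ 2 ≤ 0.4007 ^ 2 := pow_le_pow_left₀ hψ0.le hψ 2
    norm_num at h1 ⊢
    linarith

/-- first step, region (b), large `z` -/
lemma fsb2 {z s q A ε B G L : ℝ} (hL : 5.49 ≤ L) (hz1 : 0.35 ≤ z) (hz2 : (1 - s) * z ≤ 0.482)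
    (hs0 : 0 ≤ s) (hs : s ≤ 0.0775) (hsq : s * (2 * L) ≤ q ^ 2) (hq0 : 0 < q) (hq : q ≤ 1.1446)
    (hA : A = exp ((1 - s) * z) - 1) (hA1 : A ≤ 0.6181) (hε : ε = 1 - exp (-(s * z)))
    (hB : B = exp z - 1) (hG0 : 0 ≤ G) (hG : G ^ 2 = A ^ 2 + 4 * (1 + A) * sin (q * z / 2) ^ 2) :
    B + ε / A < G * (1 - ε * B) ∧ 0 < 1 - ε * B := by
  have hz0 : 0 < z := by linarith
  obtain ⟨hA0, hε0, hε1, hεz, hBA, hAlow, _, _⟩ := common hz0 hs0 (by linarith) hA hε hB
  have hw : 0.9225 * z ≤ (1 - s) * z := mul_le_mul_of_nonneg_right (by linarith) hz0.le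
  have hz3 : z ≤ 0.5226 := by linarith
  have hε2 : ε ≤ 0.0406 := by
    have : s * z ≤ 0.0775 * 0.5226 := by
      apply mul_le_mul hs hz3 hz0.le (by norm_num)
    norm_num at this ⊢
    linarith
  have hA3 : 0.9225 * z ≤ A := by
    have h2 : 0 ≤ ((1 - s) * z) ^ 2 / 2 := by positivity
    linarith
  have hA5 : 0.3228 ≤ A := by linarith
  have hεA : ε ≤ 0.08402 * A := by
    have h1 : s * z ≤ 0.0775 * z := mul_le_mul_of_nonneg_right hs hz0.le
    linarith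
  have hψ : q * z ≤ 0.5982 := by
    have : q * z ≤ 1.1446 * 0.5226 := mul_le_mul hq hz3 hz0.le (by norm_num)
    norm_num at this ⊢
    linarith
  have hψ0 : 0 < q * z := mul_pos hq0 hz0
  refine fs_num (ψ := q * z) (ν := 0.26022) (c1 := 1.4861) (c2 := 0.43) (D0 := 0.93)
    (A1 := 0.6181) hA0 hA1 (by norm_num) hε0 hε1 hBA (by norm_num) ?_ hG0 hG ?_ hψ0 ?_ (by norm_num)
    ?_ (by norm_num) ?_
  · have h1 : ε * (1 + A + ε) ≤ 0.0406 * (1 + 0.6181 + 0.0406) := by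
      apply mul_le_mul hε2 (by linarith) (by linarith) (by norm_num)
    norm_num at h1 ⊢
    linarith
  · rw [abs_of_pos hψ0]; linarith
  · have h1 : s * 10.98 ≤ q ^ 2 := by
      have : s * 10.98 ≤ s * (2 * L) := mul_le_mul_of_nonneg_left (by linarith) hs0
      linarith
    have h2 : s * z * 10.98 ≤ q ^ 2 * z := by
      have := mul_le_mul_of_nonneg_right h1 hz0.le
      linarith
    have h3 : q ^ 2 * z * 0.35 ≤ (q * z) ^ 2 := by
      have h4 : (q * z) ^ 2 = q ^ 2 * z * z := by ring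
      rw [h4]
      exact mul_le_mul_of_nonneg_left hz1 (by positivity)
    linarith
  · have h1 : ε * (1 + A) * (1 + A ^ 2) ≤ 0.08402 * A * ((1 + A) * (1 + A ^ 2)) := by
      have : ε * (1 + A) * (1 + A ^ 2) = ε * ((1 + A) * (1 + A ^ 2)) := by ring
      rw [this]
      exact mul_le_mul_of_nonneg_right hεA (by positivity)
    have h2 : (1 + A) * (1 + A ^ 2) ≤ 4.7595 * A := by
      have h3 : 0 ≤ (A - 0.3228) * (0.6181 - A) := mul_nonneg (by linarith) (by linarith)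
      nlinarith [mul_nonneg h3 hA0.le]
    have h3 : 0.08402 * A * ((1 + A) * (1 + A ^ 2)) ≤ 0.08402 * A * (4.7595 * A) :=
      mul_le_mul_of_nonneg_left h2 (by positivity)
    have h4 : 0.08402 * A * (4.7595 * A) ≤ 0.43 * 0.93 * A ^ 2 := by
      have : 0 ≤ A ^ 2 := sq_nonneg A
      nlinarith
    linarith
  · have h1 : (q * z) ^ 2 ≤ 0.5982 ^ 2 := pow_le_pow_left₀ hψ0.le hψ 2
    norm_num at h1 ⊢
    linarith

end Q2.BP2
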