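import Pool.Agent.Q2.BP2.Root

/-!
# Parameters of the root
-/

namespace Q2.BP2

open Real

/-- The parameters `τ = log b`, `L = e τ`, `q = θ/τ`, `s = 1 - log ρ / log b`. -/
structure Par (e : ℕ) (b ρ θ α τ L q s : ℝ) : Prop where
  he : 149 ≤ e
  τ0 : 0 < τ
  bτ : b = exp τ
  ρτ : ρ = exp ((1 - s) * τ)
  Lτ : L = e * τ
  bL : b - 1 = exp (-L)
  L1 : 3.68 ≤ L
  τb : τ ≤ exp (-L)
  s0 : 0 ≤ s
  sL : s * (2 * L) ≤ log (1 + q ^ 2)
  θq : θ = q * τ
  qL : q * L = 2 * π - α
  α0 : 0 < α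
  α1 : α < π / 2
  θ0 : 0 < θ
  eθ : (e : ℝ) * θ + α = 2 * π
  split : π / 4 ≤ α ∨ 5.49 ≤ L

lemma b_bound {e : ℕ} (he : 149 ≤ e) {b : ℝ} (hbe : b ^ e * (b - 1) = 1) :
    b < 1.0252 := by
  by_contra h
  push Not at h
  have h1 : (1.0252 : ℝ) ^ 149 ≤ b ^ e := by
    calc (1.0252 : ℝ) ^ 149 ≤ b ^ 149 := by gcongr
      _ ≤ b ^ e := pow_le_pow_right₀ (by linarith) he
  have h2 : (1.0252 : ℝ) ^ 149 * 0.0252 ≤ b ^ e * (b - 1) := by
    apply mul_le_mul h1 (by linarith) (by norm_num) (by positivity)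
  rw [hbe] at h2
  norm_num at h2

theorem exists_par {e : ℕ} (he : 149 ≤ e) {b : ℝ} (hb : 1 < b) (hbe : b ^ e * (b - 1) = 1) :
    ∃ ρ θ α M τ L q s : ℝ, 1 < ρ ∧ 0 < M ∧ ρ ^ e * M = 1 ∧
      ρ * cos θ - 1 = M * cos α ∧ ρ * sin θ = M * sin α ∧ ρ < b ∧
      Par e b ρ θ α τ L q s := by
  obtain ⟨ρ, θ, α, M, hρ, hM, hθ0, hθα, hα, heθ, hρM, hre, him⟩ := exists_root he
  have hπ := Real.pi_pos
  have hπ4 : π < 3.1416 := Real.pi_lt_d4
  have hπ5 : 3.1415 < π := Real.pi_gt_d4
  have he' : (149 : ℝ) ≤ e := by exact_mod_cast he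
  have he0 : (0 : ℝ) < e := by linarith
  have hb0 : 0 < b := by linarith
  have hρ0 : 0 < ρ := by linarith
  have hb1 : 0 < b - 1 := by linarith
  have hθs : θ ≤ 0.0422 := by
    by_contra h
    push Not at h
    have : (149 : ℝ) * 0.0422 ≤ e * θ := by
      apply mul_le_mul he' h.le (by norm_num) he0.le
    linarith
  have hsθ : 0 < sin θ := sin_pos_of_pos_of_lt_pi hθ0 (by linarith)
  have hcθ : cos θ < 1 := by
    have h1 : cos θ < cos 0 := Real.cos_lt_cos_of_nonneg_of_le_pi le_rfl (by linarith) hθ0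
    rwa [Real.cos_zero] at h1
  have hsα : 0 < sin α := sin_pos_of_pos_of_lt_pi (by linarith) (by linarith)
  have hcα : 0 < cos α := cos_pos_of_mem_Ioo ⟨by linarith, hα⟩
  -- the square of M
  have hM2 : M ^ 2 = (ρ - 1) ^ 2 + 2 * ρ * (1 - cos θ) := by
    have h1 := Real.sin_sq_add_cos_sq θ
    have h2 := Real.sin_sq_add_cos_sq α
    have h3 : M ^ 2 = (M * cos α) ^ 2 + (M * sin α) ^ 2 := by
      linear_combination (-M ^ 2) * h2
    rw [h3, ← hre, ← him]
    linear_combination ρ ^ 2 * h1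
  have hMρ : ρ - 1 < M := by
    have h1 : (ρ - 1) ^ 2 < M ^ 2 := by
      rw [hM2]
      have : 0 < 2 * ρ * (1 - cos θ) := by
        have : 0 < 1 - cos θ := by linarith
        positivity
      linarith
    exact lt_of_pow_lt_pow_left₀ 2 hM.le h1
  have hρb : ρ < b := by
    by_contra h
    push Not at h
    have h1 : b ^ e ≤ ρ ^ e := by gcongr
    have h2 : b ^ e * (b - 1) ≤ ρ ^ e * (ρ - 1) := by
      apply mul_le_mul h1 (by linarith) hb1.le (by positivity)
    have h3 : ρ ^ e * (ρ - 1) < ρ ^ e * M := mul_lt_mul_of_pos_left hMρ (by positivity)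
    linarith
  set τ : ℝ := log b with hτ
  have hτ0 : 0 < τ := Real.log_pos hb
  have hbτ : b = exp τ := (Real.exp_log hb0).symm
  set L : ℝ := e * τ with hL
  have hbL : b - 1 = exp (-L) := by
    have h1 : b ^ e = exp L := by
      rw [hL, hbτ, ← Real.exp_nat_mul]
    have h2 : exp (-L) * exp L = 1 := by rw [← Real.exp_add]; simp
    rw [h1] at hbe
    have h3 : exp L ≠ 0 := (Real.exp_pos L).ne'
    apply mul_left_cancel₀ h3
    linarith
  have hL1 : 3.68 ≤ L := by
    have h1 := b_bound he hbe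
    have h2 : exp (-L) < 0.0252 := by rw [← hbL]; linarith
    by_contra h
    push Not at h
    have h3 : exp (-3.68) < 0.0252 := lt_trans (Real.exp_lt_exp.mpr (by linarith)) h2
    have h4 : 1 < 0.0252 * exp 3.68 := by
      have h5 : exp (-3.68) * exp 3.68 = 1 := by rw [← Real.exp_add]; simp
      nlinarith [Real.exp_pos 3.68]
    have h6 : exp 3.68 ≤ 39.68 := by
      have h7 : exp 3.68 ^ 25 ≤ 39.68 ^ 25 := by
        rw [← Real.exp_nat_mul]
        have h8 : ((25 : ℕ) : ℝ) * 3.68 = ((92 : ℕ) : ℝ) * 1 := by norm_num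
        rw [h8, Real.exp_nat_mul]
        have h9 := Real.exp_one_lt_d9
        calc exp 1 ^ 92 ≤ 2.7182818286 ^ 92 := by gcongr
          _ ≤ 39.68 ^ 25 := by norm_num
      exact le_of_pow_le_pow_left₀ (by norm_num) (by norm_num) h7
    norm_num at h4 h6
    linarith
  have hτb : τ ≤ b - 1 := by
    rw [hτ]; exact Real.log_le_sub_one_of_pos hb0
  set q : ℝ := θ / τ with hq
  have hθq : θ = q * τ := by rw [hq]; field_simp
  have hqL : q * L = 2 * π - α := by
    rw [hL, hq]
    have : θ / τ * (e * τ) = e * θ := by field_simp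
    rw [this]; linarith
  set s : ℝ := 1 - log ρ / τ with hs
  have hρτ : ρ = exp ((1 - s) * τ) := by
    have : (1 - s) * τ = log ρ := by rw [hs]; field_simp; ring
    rw [this, Real.exp_log hρ0]
  have hlρ : log ρ < τ := by rw [hτ]; exact Real.log_lt_log hρ0 hρb
  have hs0 : 0 ≤ s := by
    rw [hs, sub_nonneg, div_le_one hτ0]; exact hlρ.le
  -- log M
  have hlogM : log M = -((1 - s) * L) := by
    have h1 : log (ρ ^ e * M) = 0 := by rw [hρM, Real.log_one]
    rw [Real.log_mul (by positivity) hM.ne', Real.log_pow] at h1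
    have h2 : (1 - s) * L = e * log ρ := by
      rw [hL, hs]; field_simp; ring
    linarith
  have hlogb : log (b - 1) = -L := by rw [hbL, Real.log_exp]
  have hbτ2 : b * τ ^ 2 ≤ (b - 1) ^ 2 := by
    have h1 : τ / 2 ≤ sinh (τ / 2) := Real.self_le_sinh_iff.mpr (by linarith)
    have h2 : b = exp (τ / 2) ^ 2 := by
      rw [← Real.exp_nat_mul, show ((2 : ℕ) : ℝ) * (τ / 2) = τ by push_cast; ring]
      exact hbτ
    have h3 : b - 1 = exp (τ / 2) * (2 * sinh (τ / 2)) := by
      rw [Real.sinh_eq]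
      have h4 : exp (τ / 2) * exp (-(τ / 2)) = 1 := by rw [← Real.exp_add]; simp
      rw [h2]; linear_combination h4
    rw [h3, mul_pow, ← h2]
    have h5 : τ ^ 2 ≤ (2 * sinh (τ / 2)) ^ 2 := by
      apply pow_le_pow_left₀ hτ0.le; linarith
    exact mul_le_mul_of_nonneg_left h5 hb0.le
  have hsL : s * (2 * L) ≤ log (1 + q ^ 2) := by
    have h1 : s * (2 * L) = log ((M / (b - 1)) ^ 2) := by
      rw [Real.log_pow, Real.log_div hM.ne' hb1.ne', hlogM, hlogb]; push_cast; ring
    rw [h1]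
    apply Real.log_le_log (by positivity)
    rw [div_pow, div_le_iff₀ (by positivity), hM2]
    have h2 : 1 - cos θ ≤ θ ^ 2 / 2 := by
      have := Real.one_sub_sq_div_two_le_cos (x := θ)
      linarith
    have h3 : 2 * ρ * (1 - cos θ) ≤ b * θ ^ 2 := by
      have h4 : 0 ≤ 1 - cos θ := by linarith
      calc 2 * ρ * (1 - cos θ) ≤ 2 * b * (θ ^ 2 / 2) := by
            apply mul_le_mul _ h2 h4 (by positivity)
            linarith
        _ = b * θ ^ 2 := by ring
    have h4 : b * θ ^ 2 = q ^ 2 * (b * τ ^ 2) := by rw [hθq]; ring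
    have h5 : q ^ 2 * (b * τ ^ 2) ≤ q ^ 2 * (b - 1) ^ 2 :=
      mul_le_mul_of_nonneg_left hbτ2 (sq_nonneg q)
    have h6 : (ρ - 1) ^ 2 ≤ (b - 1) ^ 2 := by
      apply pow_le_pow_left₀ (by linarith); linarith
    nlinarith
  have hsplit : π / 4 ≤ α ∨ 5.49 ≤ L := by
    by_cases h : π / 4 ≤ α
    · exact Or.inl h
    right
    push Not at h
    -- sin α < cos α
    have h1 : sin α < cos α := by
      have h2 : sin α < sin (π / 4) := by
        apply sin_lt_sin_of_lt_of_le_pi_div_two <;> linarith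
      have h3 : cos (π / 4) < cos α := by
        apply cos_lt_cos_of_nonneg_of_le_pi <;> linarith
      rw [Real.sin_pi_div_four] at h2
      rw [Real.cos_pi_div_four] at h3
      linarith
    have h2 : ρ * sin θ < ρ - 1 := by
      rw [him]
      calc M * sin α < M * cos α := mul_lt_mul_of_pos_left h1 hM
        _ = ρ * cos θ - 1 := hre.symm
        _ ≤ ρ - 1 := by
            have : ρ * cos θ ≤ ρ := mul_le_of_le_one_right hρ0.le hcθ.le
            linarith
    -- b sin θ < b - 1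
    have h3 : b * sin θ < b - 1 := by
      have h4 : sin θ < 1 := by
        have : sin θ ≤ θ := sin_le hθ0.le
        linarith
      nlinarith
    -- sin θ < τ
    have h4 : sin θ < τ := by
      have h5 : (b - 1) / b ≤ τ := by
        have := Real.one_sub_inv_le_log_of_pos hb0
        rw [hτ]
        refine le_trans (le_of_eq ?_) this
        field_simp
      have h6 : sin θ < (b - 1) / b := by rw [lt_div_iff₀ hb0]; linarith
      linarith
    have h5 : 0.9995 * θ ≤ sin θ := by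
      have h6 : θ - θ ^ 3 / 6 < sin θ := sin_gt_sub_cube hθ0
      have h7 : θ ^ 3 ≤ 0.0018 * θ := by
        have h8 : θ ^ 2 ≤ 0.0018 := by nlinarith
        have : θ ^ 3 = θ ^ 2 * θ := by ring
        rw [this]
        exact mul_le_mul_of_nonneg_right h8 hθ0.le
      linarith
    have h6 : 0.9995 * q < 1 := by
      have h7 : 0.9995 * (q * τ) < 1 * τ := by rw [← hθq]; linarith
      have h8 : 0.9995 * q * τ < 1 * τ := by linarith
      exact lt_of_mul_lt_mul_right h8 hτ0.le
    have h7 : 5.4975 ≤ q * L := by rw [hqL]; linarith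
    by_contra h8
    push Not at h8
    have hL0 : 0 < L := by linarith
    have hq0 : 0 < q := by rw [hq]; positivity
    have h9 : q * L < 1.00051 * 5.49 := by
      apply mul_lt_mul'' _ h8 hq0.le hL0.le
      linarith
    norm_num at h9 h7
    linarith
  refine ⟨ρ, θ, α, M, τ, L, q, s, hρ, hM, hρM, hre, him, hρb, ?_⟩
  exact ⟨he, hτ0, hbτ, hρτ, rfl, hbL, hL1, by rw [← hbL]; exact hτb, hs0, hsL, hθq, hqL,
    by linarith, hα, hθ0, heθ, hsplit⟩

end Q2.BP2
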