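import Pool.Agent.Q2.BP2.Step
import Pool.Agent.Q2.BP2.CrossNum

/-!
# All powers `k ≥ 2` for `e ≥ 149`
-/

namespace Q2.BP2

open Real Q2.BP

lemma jordan_min {u : ℝ} (hu : 0 < u) : min 1 (2 / π * u) ≤ sin (min (π / 2) u) := by
  rcases le_total u (π / 2) with h | h
  · rw [min_eq_right h]
    exact (min_le_right _ _).trans (Real.mul_le_sin hu.le h)
  · rw [min_eq_left h, sin_pi_div_two]
    exact min_le_left _ _

lemma lt_min_mul {X a b E : ℝ} (h1 : X < a * E) (h2 : X < b * E) : X < min a b * E := by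
  rcases min_choice a b with h | h <;> rw [h] <;> assumption

variable {e k : ℕ} {b ρ θ α M τ L q s : ℝ} {x : ℂ}

/-- conclusion from the first step -/
lemma Pow.finish (H : Pow e k b ρ θ α M τ L q s x) (hβ2 : b ^ k < 2)
    (h : (b ^ k - 1) + (1 - exp (-(s * (k * τ)))) / (ρ ^ k - 1)
      < ‖x ^ k - 1‖ * (1 - (1 - exp (-(s * (k * τ)))) * (b ^ k - 1)) ∧
      0 < 1 - (1 - exp (-(s * (k * τ)))) * (b ^ k - 1)) (Q : ℝ) :
    ∃ n, Q < ‖ww (b ^ k) (x ^ k) n‖ := by
  have hb1 := H.b1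
  have hρ1 := H.hρ
  have hρ0 : 0 < ρ := by linarith
  have hkne : k ≠ 0 := by have := H.hk; omega
  have hR1 : 1 < ρ ^ k := one_lt_pow₀ hρ1 hkne
  have hRβ : ρ ^ k < b ^ k := pow_lt_pow_left₀ H.hρb hρ0.le hkne
  refine criterion (ε := 1 - exp (-(s * (k * τ)))) (by rw [H.norm]; exact hR1)
    (by rw [H.norm]; exact hRβ.le) hβ2 (by rw [H.norm, H.eps]) h.2 ?_ Q
  rw [H.norm]
  exact h.1

/-- region (b) -/
lemma Pow.regionB (H : Pow e k b ρ θ α M τ L q s x) (hL : 5.49 ≤ L)
    (hzl : (1 - s) * (k * τ) ≤ 0.482) (hR : ρ ^ k - 1 ≤ 0.6181) (Q : ℝ) :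
    ∃ n, Q < ‖ww (b ^ k) (x ^ k) n‖ := by
  have hπ := Real.pi_pos
  have hπ4 : π < 3.1416 := Real.pi_lt_d4
  have hτ0 := H.P.τ0
  have hk2 : (2 : ℝ) ≤ k := by exact_mod_cast H.hk
  have hα0 := H.P.α0
  have hα1 := H.P.α1
  have hqL := H.P.qL
  have hL0 : 0 < L := by linarith
  have hs0 := H.P.s0
  have hq0 : 0 < q := by
    have h1 : 0 < q * L := by rw [hqL]; linarith
    exact (mul_pos_iff_of_pos_right hL0).mp h1
  have hqlow : 3 * π / 2 ≤ q * L := by rw [hqL]; linarith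
  have hq : q ≤ 1.1445 := by
    by_contra h
    push Not at h
    have : 1.1445 * 5.49 ≤ q * L := mul_le_mul h.le hL (by norm_num) hq0.le
    rw [hqL] at this
    norm_num at this hπ4
    linarith
  have hsL := H.P.sL
  have hq2 : q ^ 2 ≤ 1.1445 ^ 2 := pow_le_pow_left₀ hq0.le hq 2
  have hsL1 : s * (2 * L) ≤ 0.84979 := by
    have h1 := log_le_div_e (y := 1 + q ^ 2) (by positivity)
    norm_num at hq2 h1 ⊢
    linarith
  have hs : s ≤ 0.0775 := by
    by_contra h
    push Not at h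
    have : 0.0775 * (2 * 5.49) ≤ s * (2 * L) := by
      apply mul_le_mul h.le (by linarith) (by norm_num) hs0
    norm_num at this hsL1
    linarith
  have hsq : s * (2 * L) ≤ q ^ 2 := by
    have h1 := Real.log_le_sub_one_of_pos (x := 1 + q ^ 2) (by positivity)
    linarith
  have hz0 : 0 < (k : ℝ) * τ := by positivity
  set z : ℝ := k * τ with hz
  have hzz : z ≤ 0.5226 := by
    have h1 : 0.9225 * z ≤ (1 - s) * z := mul_le_mul_of_nonneg_right (by linarith) hz0.le
    linarith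
  have hAeq : ρ ^ k - 1 = exp ((1 - s) * z) - 1 := by rw [H.ρk]
  have hBeq : b ^ k - 1 = exp z - 1 := by rw [H.bk]
  have hβ2 : b ^ k < 2 := by
    have h1 := exp_up hz0.le (by linarith)
    have h2 : z ^ 2 ≤ 0.5226 ^ 2 := pow_le_pow_left₀ hz0.le hzz 2
    have h3 : z ^ 3 ≤ 0.5226 ^ 3 := pow_le_pow_left₀ hz0.le hzz 3
    rw [H.bk]
    norm_num at h2 h3 ⊢
    linarith
  have hG : ‖x ^ k - 1‖ ^ 2 = (ρ ^ k - 1) ^ 2 + 4 * (1 + (ρ ^ k - 1)) * sin (q * z / 2) ^ 2 := by
    rw [H.norm_sub_sq, H.P.θq]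
    have : (k : ℝ) * (q * τ) / 2 = q * z / 2 := by rw [hz]; ring
    rw [this]
  by_cases hz1 : 1.9 ≤ z * L
  · by_cases hz2 : z ≤ 0.35
    · exact H.finish hβ2 (fsb1 hL hz1 hz2 hs0 hs hsq hq0 (by linarith) hAeq rfl hBeq
        (norm_nonneg _) hG) Q
    · push Not at hz2
      exact H.finish hβ2 (fsb2 hL hz2.le hzl hs0 hs hsq hq0 (by linarith) hAeq hR rfl hBeq
        (norm_nonneg _) hG) Q
  push Not at hz1
  -- crossing
  obtain ⟨hA0, hε0, hε1, hεz, hBA, hAlow, _, hB0⟩ :=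
    common hz0 hs0 (by linarith) hAeq (rfl : (1 - exp (-(s * z))) = _) hBeq
  set ε : ℝ := 1 - exp (-(s * z)) with hε
  set A : ℝ := ρ ^ k - 1 with hA
  set B : ℝ := b ^ k - 1 with hB
  have hz3 : z ≤ 0.3461 := by
    by_contra h
    push Not at h
    have : 0.3461 * 5.49 ≤ z * L := mul_le_mul h.le hL (by norm_num) hz0.le
    norm_num at this hz1
    linarith
  have hBz : B ≤ 1.2 * z := by
    have h1 := exp_up hz0.le (by linarith)
    have h2 : z ^ 2 ≤ 0.3461 * z := by nlinarith only [hz3, hz0]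
    have h3 : z ^ 3 ≤ 0.3461 * (0.3461 * z) := by
      have : z ^ 3 = z * z ^ 2 := by ring
      rw [this]
      apply mul_le_mul hz3 h2 (sq_nonneg z) (by norm_num)
    rw [hBeq]
    norm_num at h2 h3 ⊢
    linarith
  have hεA : ε / A ≤ s / (1 - s) := by
    rw [div_le_div_iff₀ hA0 (by linarith)]
    have h1 : (1 - s) * z ≤ A := by
      have : 0 ≤ ((1 - s) * z) ^ 2 / 2 := by positivity
      linarith
    have h2 : s * ((1 - s) * z) ≤ s * A := mul_le_mul_of_nonneg_left h1 hs0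
    have h3 : ε * (1 - s) ≤ s * z * (1 - s) := mul_le_mul_of_nonneg_right hεz (by linarith)
    linarith
  have hκ : ε / A ≤ 0.08402 := by
    refine hεA.trans ?_
    rw [div_le_iff₀ (by linarith)]
    linarith
  have hκL : ε / A * L ≤ 0.4606 := by
    have h1 : ε / A * L ≤ s / (1 - s) * L := mul_le_mul_of_nonneg_right hεA hL0.le
    refine h1.trans ?_
    rw [div_mul_eq_mul_div, div_le_iff₀ (by linarith)]
    linarith
  have hE : 0.9888 ≤ 1 - ε * B := by
    have h1 : ε ≤ 0.0775 * 0.3461 := by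
      refine hεz.trans ?_
      apply mul_le_mul hs hz3 hz0.le (by norm_num)
    have h2 : B ≤ 1.2 * 0.3461 := by linarith
    have h3 : ε * B ≤ (0.0775 * 0.3461) * (1.2 * 0.3461) := by
      apply mul_le_mul h1 h2 hB0.le (by norm_num)
    norm_num at h3 ⊢
    linarith
  set E : ℝ := 1 - ε * B with hEdef
  set y2 : ℝ := log k - 2 * z with hy2
  obtain ⟨hii, hy20⟩ := cb2 H.hk hτ0 H.P.τb hz hL hz1.le hy2 hE
  set y : ℝ := log (L / 2.28) with hy
  have hy87 : 0.87 ≤ y := by
    rw [hy, Real.le_log_iff_exp_le (by positivity)]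
    have h1 : exp 0.87 ≤ 2.4 := by
      have h2 : exp 0.87 ^ 100 ≤ 2.4 ^ 100 := by
        rw [← Real.exp_nat_mul]
        have h3 : ((100 : ℕ) : ℝ) * 0.87 = ((87 : ℕ) : ℝ) * 1 := by norm_num
        rw [h3, Real.exp_nat_mul]
        have h4 := Real.exp_one_lt_d9
        calc exp 1 ^ 87 ≤ 2.7182818286 ^ 87 := by gcongr
          _ ≤ 2.4 ^ 100 := by norm_num
      exact le_of_pow_le_pow_left₀ (by norm_num) (by norm_num) h2
    have h2 : 2.4 ≤ L / 2.28 := by rw [le_div_iff₀ (by norm_num)]; linarith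
    linarith
  have hyL : y ≤ L := by
    have h1 := Real.log_le_sub_one_of_pos (x := L / 2.28) (by positivity)
    have h2 : L / 2.28 ≤ L := div_le_self hL0.le (by norm_num)
    linarith
  have hBy : B ≤ exp (-y) := by
    rw [hy, Real.exp_neg, Real.exp_log (by positivity), inv_div, le_div_iff₀ hL0]
    have h1 : B * L ≤ 1.2 * z * L := mul_le_mul_of_nonneg_right hBz hL0.le
    linarith
  have hkθ : ((k : ℝ) - 1) * θ < π := by
    have h1 : (k : ℝ) * θ = q * z := by rw [H.P.θq, hz]; ring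
    have h2 : q * z ≤ 1.1445 * 0.3461 := mul_le_mul hq hz3 hz0.le (by norm_num)
    have h3 := H.P.θ0
    have h4 := Real.pi_gt_three
    norm_num at h2
    linarith
  have ha1 : 0 < min (π / 2) (2 * π * y / L) := by
    apply lt_min (by positivity)
    positivity
  have ha2 : 0 < min (π / 2) (q * y2) := lt_min (by positivity) (mul_pos hq0 hy20)
  have hy0 : 0 < y := by linarith
  have hc0 : 0 ≤ min 1 (min (4 * y / L) (3 * y2 / L)) := by
    apply le_min (by norm_num)
    apply le_min <;> positivity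
  refine H.cross (by rw [← hz]; linarith) hβ2 hkθ (c := min 1 (min (4 * y / L) (3 * y2 / L)))
    (a1 := min (π / 2) (2 * π * y / L)) (a2 := min (π / 2) (q * y2)) (y := y) hc0 hBy ha1 ?_ ?_
    ha2 ?_ ?_ ?_ ?_ Q
  · refine (min_le_right _ _).trans ?_
    rw [div_le_iff₀ hL0]
    have h1 : (q * y + α) * L = q * L * y + α * L := by ring
    rw [h1, hqL]
    have h2 : α * y ≤ α * L := mul_le_mul_of_nonneg_left hyL hα0.le
    linarith
  · have h1 := jordan_min (u := 2 * π * y / L) (by positivity)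
    have h2 : 2 / π * (2 * π * y / L) = 4 * y / L := by field_simp; ring
    rw [h2] at h1
    refine le_trans ?_ h1
    apply le_min (min_le_left _ _)
    exact (min_le_right _ _).trans (min_le_left _ _)
  · exact min_le_right _ _
  · have h1 := jordan_min (u := q * y2) (mul_pos hq0 hy20)
    refine le_trans ?_ h1
    apply le_min (min_le_left _ _)
    refine ((min_le_right _ _).trans (min_le_right _ _)).trans ?_
    rw [div_le_iff₀ hL0]
    have h2 : 2 / π * (q * y2) * L = 2 / π * (q * L) * y2 := by ring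
    rw [h2]
    have h3 : 3 ≤ 2 / π * (q * L) := by
      have h4 : 2 / π * (3 * π / 2) ≤ 2 / π * (q * L) :=
        mul_le_mul_of_nonneg_left hqlow (by positivity)
      have h5 : 2 / π * (3 * π / 2) = 3 := by field_simp
      linarith
    exact mul_le_mul_of_nonneg_right h3 hy20.le
  · show 0 < 1 - ε * B
    linarith
  · show B + ε / A < min 1 (min (4 * y / L) (3 * y2 / L)) * E
    have hXL : (B + ε / A) * L ≤ 1.2 * (z * L) + 0.4606 := by
      have h1 : B * L ≤ 1.2 * z * L := mul_le_mul_of_nonneg_right hBz hL0.le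
      have h2 : (B + ε / A) * L = B * L + ε / A * L := by ring
      linarith
    apply lt_min_mul
    · linarith
    · apply lt_min_mul
      · have h1 : 4 * y / L * E = 4 * y * E / L := by ring
        rw [h1, lt_div_iff₀ hL0]
        have h2 : 4 * 0.87 * 0.9888 ≤ 4 * y * E := by
          apply mul_le_mul (by linarith) hE (by norm_num) (by linarith)
        norm_num at h2 hXL hz1 ⊢
        linarith
      · have h1 : 3 * y2 / L * E = 3 * y2 * E / L := by ring
        rw [h1, lt_div_iff₀ hL0]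
        linarith

/-- region (a) -/
lemma Pow.regionA (H : Pow e k b ρ θ α M τ L q s x) (hL : L < 5.49) (hα : π / 4 ≤ α)
    (hzl : (1 - s) * (k * τ) ≤ 0.482) (hR : ρ ^ k - 1 ≤ 0.6181) (Q : ℝ) :
    ∃ n, Q < ‖ww (b ^ k) (x ^ k) n‖ := by
  have hπ := Real.pi_pos
  have hπ4 : π < 3.1416 := Real.pi_lt_d4
  have hπ5 : 3.1415 < π := Real.pi_gt_d4
  have hτ0 := H.P.τ0
  have hk2 : (2 : ℝ) ≤ k := by exact_mod_cast H.hk
  have hα1 := H.P.α1
  have hqL := H.P.qL
  have hL1 := H.P.L1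
  have hL0 : 0 < L := by linarith
  have hs0 := H.P.s0
  have hq0 : 0 < q := by
    have h1 : 0 < q * L := by rw [hqL]; linarith
    exact (mul_pos_iff_of_pos_right hL0).mp h1
  have hqlow : 3 * π / 2 ≤ q * L := by rw [hqL]; linarith
  have hq858 : 0.8583 ≤ q := by
    by_contra h
    push Not at h
    have : q * L < 0.8583 * 5.49 := mul_lt_mul'' h hL hq0.le hL0.le
    norm_num at this hπ5
    linarith
  have hq : q ≤ 1.494 := by
    by_contra h
    push Not at h
    have : 1.494 * 3.68 ≤ q * L := mul_le_mul h.le hL1 (by norm_num) hq0.le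
    rw [hqL] at this
    norm_num at this hπ4
    linarith
  have hsL := H.P.sL
  have hq2 : q ^ 2 ≤ 1.494 ^ 2 := pow_le_pow_left₀ hq0.le hq 2
  have hlog := log_le_div_e (y := 1 + q ^ 2) (by positivity)
  have hsL1 : s * (2 * L) ≤ 1.18904 := by
    norm_num at hq2 hlog ⊢
    linarith
  have hs : s ≤ 0.1616 := by
    by_contra h
    push Not at h
    have : 0.1616 * (2 * 3.68) ≤ s * (2 * L) := by
      apply mul_le_mul h.le (by linarith) (by norm_num) hs0
    norm_num at this hsL1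
    linarith
  have hsq : s ≤ 0.084886 * q ^ 2 := by
    have h1 : s * (2 * L) ≤ 0.8 * q := by
      have h2 : 0 ≤ (q - 0.67) * (1.5 - q) := mul_nonneg (by linarith) (by linarith)
      nlinarith only [h2, hsL, hlog]
    have h2 : s * (2 * L) * q ≤ 0.8 * q * q := mul_le_mul_of_nonneg_right h1 hq0.le
    have h3 : s * (2 * L) * q = 2 * s * (q * L) := by ring
    have h4 : 2 * s * (3 * π / 2) ≤ 2 * s * (q * L) :=
      mul_le_mul_of_nonneg_left hqlow (by positivity)
    have h5 : s * 9.4245 ≤ s * (3 * π) := mul_le_mul_of_nonneg_left (by linarith) hs0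
    have h6 : 0 ≤ q ^ 2 := sq_nonneg q
    have h7 : 0.8 * q * q = 0.8 * q ^ 2 := by ring
    rw [h3, h7] at h2
    linarith
  have hz0 : 0 < (k : ℝ) * τ := by positivity
  set z : ℝ := k * τ with hz
  have hzz : z ≤ 0.575 := by
    have h1 : 0.8384 * z ≤ (1 - s) * z := mul_le_mul_of_nonneg_right (by linarith) hz0.le
    linarith
  have hAeq : ρ ^ k - 1 = exp ((1 - s) * z) - 1 := by rw [H.ρk]
  have hBeq : b ^ k - 1 = exp z - 1 := by rw [H.bk]
  have hβ2 : b ^ k < 2 := by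
    have h1 := exp_up hz0.le (by linarith)
    have h2 : z ^ 2 ≤ 0.575 ^ 2 := pow_le_pow_left₀ hz0.le hzz 2
    have h3 : z ^ 3 ≤ 0.575 ^ 3 := pow_le_pow_left₀ hz0.le hzz 3
    rw [H.bk]
    norm_num at h2 h3 ⊢
    linarith
  have hG : ‖x ^ k - 1‖ ^ 2 = (ρ ^ k - 1) ^ 2 + 4 * (1 + (ρ ^ k - 1)) * sin (q * z / 2) ^ 2 := by
    rw [H.norm_sub_sq, H.P.θq]
    have : (k : ℝ) * (q * τ) / 2 = q * z / 2 := by rw [hz]; ring
    rw [this]
  by_cases hz1 : 0.45 ≤ z
  · exact H.finish hβ2 (fsa hz1 hzl hs0 hs hsq hq0 hq hAeq hR rfl hBeq (norm_nonneg _) hG) Q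
  push Not at hz1
  -- crossing
  obtain ⟨hA0, hε0, hε1, hεz, hBA, hAlow, _, hB0⟩ :=
    common hz0 hs0 (by linarith) hAeq (rfl : (1 - exp (-(s * z))) = _) hBeq
  set ε : ℝ := 1 - exp (-(s * z)) with hε
  set A : ℝ := ρ ^ k - 1 with hA
  set B : ℝ := b ^ k - 1 with hB
  have hBz : B ≤ 1.27 * z := by
    have h1 := exp_up hz0.le (by linarith)
    have h2 : z ^ 2 ≤ 0.45 * z := by nlinarith only [hz1, hz0]
    have h3 : z ^ 3 ≤ 0.45 * (0.45 * z) := by
      have : z ^ 3 = z * z ^ 2 := by ring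
      rw [this]
      apply mul_le_mul hz1.le h2 (sq_nonneg z) (by norm_num)
    rw [hBeq]
    norm_num at h2 h3 ⊢
    linarith
  have hB57 : B ≤ 0.5715 := by linarith
  have hεA : ε / A ≤ s / (1 - s) := by
    rw [div_le_div_iff₀ hA0 (by linarith)]
    have h1 : (1 - s) * z ≤ A := by
      have : 0 ≤ ((1 - s) * z) ^ 2 / 2 := by positivity
      linarith
    have h2 : s * ((1 - s) * z) ≤ s * A := mul_le_mul_of_nonneg_left h1 hs0
    have h3 : ε * (1 - s) ≤ s * z * (1 - s) := mul_le_mul_of_nonneg_right hεz (by linarith)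
    linarith
  have hκ : ε / A ≤ 0.1928 := by
    refine hεA.trans ?_
    rw [div_le_iff₀ (by linarith)]
    linarith
  have hκL : ε / A * L ≤ 0.7092 := by
    have h1 : ε / A * L ≤ s / (1 - s) * L := mul_le_mul_of_nonneg_right hεA hL0.le
    refine h1.trans ?_
    rw [div_mul_eq_mul_div, div_le_iff₀ (by linarith)]
    linarith
  have hE : 0.958 ≤ 1 - ε * B := by
    have h1 : ε ≤ 0.1616 * 0.45 := by
      refine hεz.trans ?_
      apply mul_le_mul hs hz1.le hz0.le (by norm_num)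
    have h3 : ε * B ≤ (0.1616 * 0.45) * 0.5715 := by
      apply mul_le_mul h1 hB57 hB0.le (by norm_num)
    norm_num at h3 ⊢
    linarith
  set E : ℝ := 1 - ε * B with hEdef
  set y2 : ℝ := log k - 2 * z with hy2
  obtain ⟨hii, hy20⟩ := ca2 H.hk hτ0 H.P.τb hz hL1 hL.le hz1.le hy2 hE
  have hBy : B ≤ exp (-0.55) := by
    have h1 := exp_up (z := 0.55) (by norm_num) (by norm_num)
    have h2 : exp (-0.55) * exp 0.55 = 1 := by rw [← Real.exp_add]; simp
    have h3 : 0 < exp (-0.55) := Real.exp_pos _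
    have h4 : 1 ≤ exp (-0.55) * 1.7383 := by
      rw [← h2]
      apply mul_le_mul_of_nonneg_left _ h3.le
      norm_num at h1 ⊢
      linarith
    linarith
  have hkθ : ((k : ℝ) - 1) * θ < π := by
    have h1 : (k : ℝ) * θ = q * z := by rw [H.P.θq, hz]; ring
    have h2 : q * z ≤ 1.494 * 0.45 := mul_le_mul hq hz1.le hz0.le (by norm_num)
    have h3 := H.P.θ0
    norm_num at h2
    linarith
  have ha2 : 0 < min (π / 2) (q * y2) := lt_min (by positivity) (mul_pos hq0 hy20)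
  have hc0 : 0 ≤ min 0.948 (3 * y2 / L) := by
    apply le_min (by norm_num)
    positivity
  refine H.cross (by rw [← hz]; linarith) hβ2 hkθ (c := min 0.948 (3 * y2 / L))
    (a1 := 1.25) (a2 := min (π / 2) (q * y2)) (y := 0.55) hc0 hBy (by norm_num) ?_ ?_
    ha2 ?_ ?_ ?_ ?_ Q
  · have h1 : 0.8583 * 0.55 ≤ q * 0.55 := mul_le_mul_of_nonneg_right hq858 (by norm_num)
    norm_num at h1 hπ5 ⊢
    linarith
  · refine (min_le_left _ _).trans ?_
    have h1 : sin 1.25 = cos (π / 2 - 1.25) := (Real.cos_pi_div_two_sub 1.25).symm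
    rw [h1]
    have h2 := Real.one_sub_sq_div_two_le_cos (x := π / 2 - 1.25)
    have h3 : (π / 2 - 1.25) ^ 2 ≤ 0.3209 ^ 2 := by
      apply pow_le_pow_left₀ (by norm_num at hπ5 ⊢; linarith)
      norm_num at hπ4 ⊢
      linarith
    norm_num at h3 h2 ⊢
    linarith
  · exact min_le_right _ _
  · have h1 := jordan_min (u := q * y2) (mul_pos hq0 hy20)
    refine le_trans ?_ h1
    apply le_min ((min_le_left _ _).trans (by norm_num))
    refine (min_le_right _ _).trans ?_
    rw [div_le_iff₀ hL0]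
    have h2 : 2 / π * (q * y2) * L = 2 / π * (q * L) * y2 := by ring
    rw [h2]
    have h3 : 3 ≤ 2 / π * (q * L) := by
      have h4 : 2 / π * (3 * π / 2) ≤ 2 / π * (q * L) :=
        mul_le_mul_of_nonneg_left hqlow (by positivity)
      have h5 : 2 / π * (3 * π / 2) = 3 := by field_simp
      linarith
    exact mul_le_mul_of_nonneg_right h3 hy20.le
  · show 0 < 1 - ε * B
    linarith
  · show B + ε / A < min 0.948 (3 * y2 / L) * E
    have hXL : (B + ε / A) * L ≤ 1.27 * z * L + 0.7092 := by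
      have h1 : B * L ≤ 1.27 * z * L := mul_le_mul_of_nonneg_right hBz hL0.le
      have h2 : (B + ε / A) * L = B * L + ε / A * L := by ring
      linarith
    apply lt_min_mul
    · linarith
    · have h1 : 3 * y2 / L * E = 3 * y2 * E / L := by ring
      rw [h1, lt_div_iff₀ hL0]
      linarith

/-- all powers -/
theorem Pow.escape (H : Pow e k b ρ θ α M τ L q s x) (Q : ℝ) :
    ∃ n, Q < ‖ww (b ^ k) (x ^ k) n‖ := by
  have hb1 := H.b1
  have hρ1 := H.hρ
  have hρ0 : 0 < ρ := by linarith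
  have hkne : k ≠ 0 := by have := H.hk; omega
  have hR1 : 1 < ρ ^ k := one_lt_pow₀ hρ1 hkne
  have hRβ : ρ ^ k < b ^ k := pow_lt_pow_left₀ H.hρb hρ0.le hkne
  by_cases hbig : ρ ^ k + 1 < (ρ ^ k) ^ 2
  · apply escape_large
    · rw [H.norm]; exact hR1
    · rw [H.norm]; exact hbig
    · intro h
      have : ‖x ^ k‖ = b ^ k := by
        rw [h, Complex.norm_real, Real.norm_eq_abs, abs_of_pos (by positivity)]
      rw [H.norm] at this
      linarith
  push Not at hbig
  have hR : ρ ^ k - 1 ≤ 0.6181 := by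
    by_contra h
    push Not at h
    have h1 : 0 < (ρ ^ k - 1.6181) * (ρ ^ k - 1.6181) := mul_pos (by linarith) (by linarith)
    have h2 : (ρ ^ k - 1.6181) * (ρ ^ k - 1.6181) =
        (ρ ^ k) ^ 2 - 3.2362 * ρ ^ k + 1.6181 ^ 2 := by ring
    rw [h2] at h1
    linarith
  have hzl : (1 - s) * (k * τ) ≤ 0.482 := by
    by_contra h
    push Not at h
    have h1 : exp 0.482 < ρ ^ k := by rw [H.ρk]; exact Real.exp_lt_exp.mpr h
    have h2 := Real.sum_le_exp_of_nonneg (x := 0.482) (by norm_num) 5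
    simp only [Finset.sum_range_succ, Finset.sum_range_zero, Nat.factorial] at h2
    norm_num at h2 h1 hR
    linarith
  by_cases hL : 5.49 ≤ L
  · exact H.regionB hL hzl hR Q
  · push Not at hL
    rcases H.P.split with h | h
    · exact H.regionA hL h hzl hR Q
    · linarith

/-- the large degrees -/
theorem large {d : ℕ} (hd : 150 ≤ d) {b : ℝ} (hb : 1 < b) (hbd : b ^ (d - 1) * (b - 1) = 1)
    {k : ℕ} (hk : 2 ≤ k) :
    ∃ x : ℂ, 1 < ‖x‖ ∧ x ^ d - x ^ (d - 1) - 1 = 0 ∧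
      ∀ M : ℝ, ∃ n, M < ‖ww (b ^ k) (x ^ k) n‖ := by
  obtain ⟨e, rfl⟩ : ∃ e, d = e + 1 := ⟨d - 1, by omega⟩
  have he : e + 1 - 1 = e := by omega
  rw [he] at hbd ⊢
  obtain ⟨ρ, θ, α, M, τ, L, q, s, hρ, hM, hρM, hre, him, hρb, P⟩ :=
    exists_par (by omega : 149 ≤ e) hb hbd
  have H : Pow e k b ρ θ α M τ L q s ((ρ : ℂ) * Complex.exp (θ * Complex.I)) :=
    ⟨P, hρ, hM, hρM, hre, him, hρb, hk, rfl⟩
  refine ⟨_, ?_, H.root, H.escape⟩
  rw [norm_mul, Complex.norm_exp_ofReal_mul_I, mul_one, Complex.norm_real, Real.norm_eq_abs,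
    abs_of_pos (by linarith)]
  exact hρ

end Q2.BP2
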