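import Pool.Agent.Q2.BP.Core

/-!
# A root of `x^e (x - 1) = 1` next to the real one
-/

namespace Q2.BP2

open Real

/-- Data of the root `x = ρ exp(iθ)`, `x - 1 = M exp(iα)` of `x^e (x - 1) = 1`. -/
theorem exists_root {e : ℕ} (he : 149 ≤ e) : ∃ ρ θ α M : ℝ, 1 < ρ ∧ 0 < M ∧ 0 < θ ∧ θ < α ∧
    α < π / 2 ∧ (e : ℝ) * θ + α = 2 * π ∧ ρ ^ e * M = 1 ∧
    ρ * cos θ - 1 = M * cos α ∧ ρ * sin θ = M * sin α := by
  have he' : (149 : ℝ) ≤ e := by exact_mod_cast he
  have hπ := Real.pi_pos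
  have hπ3 := Real.pi_gt_three
  have hπ4 : π < 3.1416 := Real.pi_lt_d4
  set f : ℝ → ℝ := fun θ => sin (2 * π - e * θ) ^ e * sin θ -
    sin (2 * π - ((e : ℝ) + 1) * θ) ^ (e + 1) with hf
  set a : ℝ := 3 * π / (2 * e) with ha
  set c : ℝ := 2 * π / ((e : ℝ) + 1) with hc
  have he0 : (0 : ℝ) < e := by linarith
  have he1 : (0 : ℝ) < (e : ℝ) + 1 := by linarith
  have hea : (e : ℝ) * a = 3 * π / 2 := by rw [ha]; field_simp
  have hec : ((e : ℝ) + 1) * c = 2 * π := by rw [hc]; field_simp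
  have ha0 : 0 < a := by positivity
  have ha1 : a ≤ 0.0317 := by
    rw [ha, div_le_iff₀ (by positivity)]
    linarith
  have hc1 : c ≤ 0.042 := by
    rw [hc, div_le_iff₀ he1]
    linarith
  have hac : a < c := by
    have h1 : ((e : ℝ) + 1) * a < ((e : ℝ) + 1) * c := by
      rw [hec, add_mul, hea]; linarith
    exact lt_of_mul_lt_mul_left h1 he1.le
  have hfc : 0 < f c := by
    simp only [hf]
    rw [hec, sub_self, sin_zero, zero_pow (by omega), sub_zero]
    have h1 : 2 * π - (e : ℝ) * c = c := by linarith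
    rw [h1]
    have : 0 < sin c := sin_pos_of_pos_of_lt_pi (by linarith) (by linarith)
    positivity
  have hfa : f a < 0 := by
    simp only [hf]
    have h1 : 2 * π - (e : ℝ) * a = π / 2 := by rw [hea]; ring
    have h2 : 2 * π - ((e : ℝ) + 1) * a = π / 2 - a := by rw [add_mul, hea]; ring
    rw [h1, h2, sin_pi_div_two, one_pow, one_mul, sin_pi_div_two_sub]
    have h3 : sin a ≤ 0.0317 := (sin_le ha0.le).trans ha1
    have h4 : 1 - a ^ 2 / 2 ≤ cos a := one_sub_sq_div_two_le_cos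
    have h5 : (1 - a ^ 2 / 2) ^ (e + 1) ≤ cos a ^ (e + 1) := by
      apply pow_le_pow_left₀ _ h4
      nlinarith
    have h6 : 1 - ((e : ℝ) + 1) * (a ^ 2 / 2) ≤ (1 - a ^ 2 / 2) ^ (e + 1) := by
      have := one_add_mul_le_pow (a := -(a ^ 2 / 2)) (by nlinarith) (e + 1)
      push_cast at this
      have h7 : (1 + -(a ^ 2 / 2)) = 1 - a ^ 2 / 2 := by ring
      rw [h7] at this
      linarith
    have h7 : ((e : ℝ) + 1) * (a ^ 2 / 2) ≤ 0.1 := by
      have h8 : ((e : ℝ) + 1) * (a ^ 2 / 2) = ((e : ℝ) * a + a) * a / 2 := by ring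
      rw [h8, hea]
      have h9 : (3 * π / 2 + a) * a ≤ 5 * 0.0317 := by
        apply mul_le_mul _ ha1 ha0.le (by norm_num)
        linarith
      linarith
    linarith
  have hcont : ContinuousOn f (Set.Icc a c) := by
    apply Continuous.continuousOn
    simp only [hf]
    fun_prop
  obtain ⟨θ, hθ, hθ0⟩ := intermediate_value_Icc hac.le hcont ⟨hfa.le, hfc.le⟩
  have hθa : a < θ := by
    refine lt_of_le_of_ne hθ.1 ?_
    rintro rfl; linarith
  have hθc : θ < c := by
    refine lt_of_le_of_ne hθ.2 ?_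
    rintro rfl; linarith
  set α : ℝ := 2 * π - e * θ with hα
  set φ : ℝ := 2 * π - ((e : ℝ) + 1) * θ with hφ
  have hφα : φ = α - θ := by rw [hφ, hα]; ring
  have hφ0 : 0 < φ := by
    have : ((e : ℝ) + 1) * θ < ((e : ℝ) + 1) * c := mul_lt_mul_of_pos_left hθc he1
    rw [hφ]; linarith
  have hθ00 : 0 < θ := by linarith
  have hα2 : α < π / 2 := by
    have : (e : ℝ) * a < (e : ℝ) * θ := mul_lt_mul_of_pos_left hθa he0
    rw [hα]; linarith
  have hsφ : 0 < sin φ := sin_pos_of_pos_of_lt_pi hφ0 (by linarith)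
  have hsα : 0 < sin α := sin_pos_of_pos_of_lt_pi (by linarith) (by linarith)
  have hsθ : 0 < sin θ := sin_pos_of_pos_of_lt_pi hθ00 (by linarith)
  have heq : sin α ^ e * sin θ = sin φ ^ (e + 1) := by
    have : f θ = 0 := hθ0
    simp only [hf] at this
    rw [← hα, ← hφ] at this
    linarith
  have h1 : sin φ = sin α * cos θ - cos α * sin θ := by rw [hφα]; exact Real.sin_sub α θ
  have hM : 0 < sin θ / sin φ := by positivity
  have hre : sin α / sin φ * cos θ - 1 = sin θ / sin φ * cos α := by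
    have h2 : sin φ ≠ 0 := hsφ.ne'
    field_simp
    linear_combination -h1
  have hcα : 0 < cos α := cos_pos_of_mem_Ioo ⟨by linarith, hα2⟩
  refine ⟨sin α / sin φ, θ, α, sin θ / sin φ, ?_, hM, hθ00, by linarith, hα2, by rw [hα]; ring,
    ?_, hre, ?_⟩
  · have h2 : 0 < sin θ / sin φ * cos α := by positivity
    have h3 : 1 < sin α / sin φ * cos θ := by linarith
    have h4 : sin α / sin φ * cos θ ≤ sin α / sin φ :=
      mul_le_of_le_one_right (by positivity) (cos_le_one θ)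
    linarith
  · rw [div_pow, div_mul_div_comm, heq, ← pow_succ, div_self]
    positivity
  · have h2 : sin φ ≠ 0 := hsφ.ne'
    field_simp

end Q2.BP2
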