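import Pool.Agent.Q2.BP2.Params
import Pool.Agent.Q2.BP2.Cross
import Pool.Agent.Q2.BP2.FS

/-!
# The two steps for the root of `x^e (x - 1) = 1`
-/

namespace Q2.BP2

open Real Q2.BP

/-- the common data for a power `k` -/
structure Pow (e k : ℕ) (b ρ θ α M τ L q s : ℝ) (x : ℂ) : Prop where
  P : Par e b ρ θ α τ L q s
  hρ : 1 < ρ
  hM : 0 < M
  hρM : ρ ^ e * M = 1
  hre : ρ * cos θ - 1 = M * cos α
  him : ρ * sin θ = M * sin α
  hρb : ρ < b
  hk : 2 ≤ k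
  hx : x = (ρ : ℂ) * Complex.exp (θ * Complex.I)

variable {e k : ℕ} {b ρ θ α M τ L q s : ℝ} {x : ℂ}

lemma Pow.norm (H : Pow e k b ρ θ α M τ L q s x) : ‖x ^ k‖ = ρ ^ k := by
  have hρ0 : 0 < ρ := by linarith [H.hρ]
  rw [norm_pow, H.hx, norm_mul, Complex.norm_exp_ofReal_mul_I, mul_one, Complex.norm_real,
    Real.norm_eq_abs, abs_of_pos hρ0]

lemma Pow.sub_one (H : Pow e k b ρ θ α M τ L q s x) :
    x - 1 = (M : ℂ) * Complex.exp (α * Complex.I) := by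
  rw [H.hx, Complex.exp_mul_I, Complex.exp_mul_I, ← Complex.ofReal_cos, ← Complex.ofReal_sin,
    ← Complex.ofReal_cos, ← Complex.ofReal_sin]
  have hre' : ((ρ * cos θ - 1 : ℝ) : ℂ) = ((M * cos α : ℝ) : ℂ) := by rw [H.hre]
  have him' : ((ρ * sin θ : ℝ) : ℂ) = ((M * sin α : ℝ) : ℂ) := by rw [H.him]
  rw [Complex.ofReal_sub, Complex.ofReal_mul, Complex.ofReal_mul, Complex.ofReal_one] at hre'
  rw [Complex.ofReal_mul, Complex.ofReal_mul] at him'
  linear_combination hre' + Complex.I * him'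

lemma Pow.b1 (H : Pow e k b ρ θ α M τ L q s x) : 1 < b := lt_trans H.hρ H.hρb

lemma Pow.bk (H : Pow e k b ρ θ α M τ L q s x) : b ^ k = exp (k * τ) := by
  rw [H.P.bτ, ← Real.exp_nat_mul]

lemma Pow.ρk (H : Pow e k b ρ θ α M τ L q s x) : ρ ^ k = exp ((1 - s) * (k * τ)) := by
  rw [H.P.ρτ, ← Real.exp_nat_mul]; congr 1; ring

lemma Pow.eps (H : Pow e k b ρ θ α M τ L q s x) :
    (b ^ k - ρ ^ k) / b ^ k = 1 - exp (-(s * (k * τ))) := by
  rw [H.bk, H.ρk]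
  have h1 : exp ((1 - s) * (k * τ)) = exp (k * τ) * exp (-(s * (k * τ))) := by
    rw [← Real.exp_add]; congr 1; ring
  rw [h1]
  have h2 : exp (k * τ) ≠ 0 := (Real.exp_pos _).ne'
  field_simp

lemma Pow.power (H : Pow e k b ρ θ α M τ L q s x) (j : ℕ) :
    x ^ j = ((ρ ^ j : ℝ) : ℂ) * Complex.exp ((j * θ : ℝ) * Complex.I) := by
  rw [H.hx, mul_pow, ← Complex.exp_nat_mul]
  push_cast
  ring_nf

lemma Pow.root (H : Pow e k b ρ θ α M τ L q s x) : x ^ (e + 1) - x ^ e - 1 = 0 := by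
  have h1 : x ^ (e + 1) - x ^ e = x ^ e * (x - 1) := by ring
  rw [h1, H.sub_one, H.power e]
  have h2 : ((ρ ^ e : ℝ) : ℂ) * Complex.exp ((e * θ : ℝ) * Complex.I)
      * ((M : ℂ) * Complex.exp (α * Complex.I))
      = ((ρ ^ e * M : ℝ) : ℂ) * Complex.exp (((e * θ + α : ℝ) : ℂ) * Complex.I) := by
    push_cast
    rw [add_mul, Complex.exp_add]; ring
  rw [h2, H.hρM, H.P.eθ]
  push_cast
  rw [Complex.exp_two_pi_mul_I]; ring

/-- first step -/
lemma Pow.norm_sub_sq (H : Pow e k b ρ θ α M τ L q s x) :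
    ‖x ^ k - 1‖ ^ 2 = (ρ ^ k - 1) ^ 2 + 4 * (1 + (ρ ^ k - 1)) * sin (k * θ / 2) ^ 2 := by
  have hre : (x ^ k).re = ρ ^ k * cos (k * θ) := by
    rw [H.power k, Complex.re_ofReal_mul, Complex.exp_ofReal_mul_I_re]
  have h1 : ‖x ^ k - 1‖ ^ 2 = (ρ ^ k) ^ 2 - 2 * (ρ ^ k * cos (k * θ)) + 1 := by
    rw [← hre]
    have h2 : (ρ ^ k) ^ 2 = ‖x ^ k‖ ^ 2 := by rw [H.norm]
    rw [h2, ← Complex.normSq_eq_norm_sq, ← Complex.normSq_eq_norm_sq]
    simp only [Complex.normSq_apply, Complex.sub_re, Complex.sub_im, Complex.one_re,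
      Complex.one_im]
    ring
  have h3 : cos (k * θ) = 1 - 2 * sin (k * θ / 2) ^ 2 := by
    have := Real.cos_two_mul (k * θ / 2)
    have h9 := Real.sin_sq_add_cos_sq (k * θ / 2)
    rw [show 2 * (k * θ / 2) = k * θ by ring] at this
    linarith
  rw [h1, h3]; ring

/-- the crossing step -/
theorem Pow.cross (H : Pow e k b ρ θ α M τ L q s x) (hz : k * τ ≤ 0.45)
    (hβ2 : b ^ k < 2) (hkθ : ((k : ℝ) - 1) * θ < π) {c a1 a2 y : ℝ} (hc : 0 ≤ c)
    (hy : b ^ k - 1 ≤ exp (-y)) (ha1 : 0 < a1) (ha1' : a1 ≤ q * y + α) (hcs1 : c ≤ sin a1)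
    (ha2 : 0 < a2) (ha2' : a2 ≤ q * (log k - 2 * (k * τ))) (hcs2 : c ≤ sin a2)
    (hε1 : 0 < 1 - (1 - exp (-(s * (k * τ)))) * (b ^ k - 1))
    (hfin : (b ^ k - 1) + (1 - exp (-(s * (k * τ)))) / (ρ ^ k - 1)
      < c * (1 - (1 - exp (-(s * (k * τ)))) * (b ^ k - 1))) (Q : ℝ) :
    ∃ n, Q < ‖ww (b ^ k) (x ^ k) n‖ := by
  have hb1 := H.b1
  have hb0 : 0 < b := by linarith
  have hρ1 := H.hρ
  have hρ0 : 0 < ρ := by linarith
  have hkne : k ≠ 0 := by have := H.hk; omega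
  have hk2 : (2 : ℝ) ≤ k := by exact_mod_cast H.hk
  have hk0 : (0 : ℝ) < k := by linarith
  have hβ1 : 1 < b ^ k := one_lt_pow₀ hb1 hkne
  have hR1 : 1 < ρ ^ k := one_lt_pow₀ hρ1 hkne
  have hRβ : ρ ^ k < b ^ k := pow_lt_pow_left₀ H.hρb hρ0.le hkne
  have hτ0 := H.P.τ0
  have hθ0 := H.P.θ0
  have hq0 : 0 < q := by
    have h1 : 0 < q * τ := by rw [← H.P.θq]; exact hθ0
    exact (mul_pos_iff_of_pos_right hτ0).mp h1
  -- the first n with β^n B ≥ 1
  have hex : ∃ n : ℕ, 1 ≤ (b ^ k) ^ n * (b ^ k - 1) := by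
    obtain ⟨n, hn⟩ := pow_unbounded_of_one_lt (1 / (b ^ k - 1)) hβ1
    refine ⟨n, ?_⟩
    rw [div_lt_iff₀ (by linarith)] at hn
    exact hn.le
  classical
  set n := Nat.find hex with hn
  have hn2 : 1 ≤ (b ^ k) ^ n * (b ^ k - 1) := Nat.find_spec hex
  have hn0 : 1 ≤ n := by
    by_contra h
    have h0 : n = 0 := by omega
    rw [h0] at hn2
    simp at hn2
    linarith
  have hn1 : (b ^ k) ^ (n - 1) * (b ^ k - 1) < 1 := by
    have := Nat.find_min hex (m := n - 1) (by omega)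
    linarith [not_le.mp this]
  obtain ⟨r, σ, hr, hσ0, hσ1, hS⟩ := cone hρ0.le hθ0 H.hk hkθ
  -- W
  have hW : (x ^ k) ^ n * (x ^ k - 1) = (((ρ ^ (k * n) * M * r : ℝ)) : ℂ) *
      Complex.exp (((k * n * θ + α + σ : ℝ) : ℂ) * Complex.I) := by
    have h1 : x ^ k - 1 = (x - 1) * ∑ j ∈ Finset.range k, x ^ j := by
      rw [mul_comm]; exact (geom_sum_mul x k).symm
    rw [← pow_mul, h1, H.power (k * n), H.sub_one]
    have h2 : ∑ j ∈ Finset.range k, x ^ j = (r : ℂ) * Complex.exp (σ * Complex.I) := by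
      rw [← hS, H.hx]
    rw [h2]
    push_cast
    rw [add_mul, add_mul, Complex.exp_add, Complex.exp_add]
    ring
  have hrr : ¬ (ρ ^ (k * n) * M * r < 0) := by
    have := H.hM
    push Not; positivity
  -- lower bound of the angle
  have hnz : y ≤ n * (k * τ) := by
    by_contra h
    push Not at h
    have h1 : (b ^ k) ^ n = exp (n * (k * τ)) := by
      rw [H.bk, ← Real.exp_nat_mul]
    have h2 : (b ^ k) ^ n * (b ^ k - 1) ≤ exp (n * (k * τ)) * exp (-y) := by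
      rw [h1]; gcongr
    rw [← Real.exp_add] at h2
    have h3 : exp (n * (k * τ) + -y) < 1 := by rw [Real.exp_lt_one_iff]; linarith
    linarith
  have hΩ1 : a1 ≤ k * n * θ + α + σ := by
    have h1 : (k : ℝ) * n * θ = q * (n * (k * τ)) := by rw [H.P.θq]; ring
    have h2 : q * y ≤ q * (n * (k * τ)) := mul_le_mul_of_nonneg_left hnz hq0.le
    linarith
  -- upper bound of the angle
  have hlog : log k < (e - k * (n - 1 : ℕ)) * τ := by
    have h1 : (b ^ k) ^ (n - 1) * (k * (b - 1)) < b ^ e * (b - 1) := by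
      have h2 : (k : ℝ) * (b - 1) ≤ b ^ k - 1 := by
        have := one_add_mul_le_pow (a := b - 1) (by linarith) k
        have h3 : (1 + (b - 1)) ^ k = b ^ k := by ring
        rw [h3] at this
        linarith
      have h3 : b ^ e * (b - 1) = 1 := by
        have h4 : b ^ e = exp L := by rw [H.P.bτ, ← Real.exp_nat_mul, H.P.Lτ]
        rw [h4, H.P.bL, ← Real.exp_add]; simp
      rw [h3]
      calc (b ^ k) ^ (n - 1) * (k * (b - 1)) ≤ (b ^ k) ^ (n - 1) * (b ^ k - 1) := by gcongr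
        _ < 1 := hn1
    have h2 : (b ^ k) ^ (n - 1) * k < b ^ e := by
      have h3 : (b ^ k) ^ (n - 1) * k * (b - 1) < b ^ e * (b - 1) := by linarith
      exact lt_of_mul_lt_mul_right h3 (by linarith)
    have h3 := Real.log_lt_log (by positivity) h2
    rw [Real.log_mul (by positivity) (by positivity), Real.log_pow, Real.log_pow, Real.log_pow]
      at h3
    have h4 : log b = τ := by rw [H.P.bτ, Real.log_exp]
    rw [h4] at h3
    have h5 : ((e : ℝ) - k * (n - 1 : ℕ)) * τ = e * τ - ((n - 1 : ℕ) : ℝ) * (k * τ) := by ring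
    rw [h5]; linarith
  have hΩ2 : k * n * θ + α + σ ≤ 2 * π - a2 := by
    have h1 : ((n - 1 : ℕ) : ℝ) = (n : ℝ) - 1 := by
      rw [Nat.cast_sub hn0]; simp
    rw [h1] at hlog
    have h2 : log k - 2 * (k * τ) ≤ (e - k * n - (k - 1)) * τ := by
      have h3 : ((e : ℝ) - k * n - (k - 1)) * τ = ((e : ℝ) - k * (n - 1)) * τ - 2 * (k * τ) + τ := by
        ring
      rw [h3]; linarith
    have h3 : q * (log k - 2 * (k * τ)) ≤ q * ((e - k * n - (k - 1)) * τ) :=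
      mul_le_mul_of_nonneg_left h2 hq0.le
    have h4 : q * (((e : ℝ) - k * n - (k - 1)) * τ) = e * θ - k * n * θ - (k - 1) * θ := by
      rw [H.P.θq]; ring
    rw [h4] at h3
    have h5 := H.P.eθ
    linarith
  have hdist : c ≤ ‖(x ^ k) ^ n * (x ^ k - 1) - 1‖ := by
    rcases dist_ray (r := ρ ^ (k * n) * M * r) ha1 ha2 hΩ1 hΩ2 hc hcs1 hcs2 with h | h
    · rw [hW]; exact h
    · exact absurd h hrr
  refine Q2.BP2.cross (ε := 1 - exp (-(s * (k * τ)))) (by rw [H.norm]; exact hR1)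
    (by rw [H.norm]; exact hRβ.le) hβ2 (by rw [H.norm, H.eps]) hε1 hn0 hn1 hn2 ?_ Q
  rw [H.norm]
  exact lt_of_lt_of_le hfin (mul_le_mul_of_nonneg_right hdist hε1.le)

end Q2.BP2
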